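import Pool.Agent.Work.MP_157c12_gt.RA.Stmts
import Pool.Agent.Work.MP_157c12_gt.Basic
import Pool.Agent.Work.MP_157c12_gt.Rot.GStmts

section

set_option autoImplicit false

open Finset

namespace Pool.Agent.Work.MP_157c12_gt.RA

namespace ItemSHom

open Polynomial

variable {R : Type} [CommRing R] [Algebra ℂ R]

theorem hm_zero (w : ℕ) : hm (0 : R) w = 0 := by simp [hm]

theorem sum_aux (k : ℕ) (c : ℕ → ℂ) (P x : R) (y : ℕ → R) (e : ℕ)
    (h : x = ∑ l ∈ range k, algebraMap ℂ R (c l) * P ^ (k - l) * y l) :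
    hm x (2 * k + e) =
      ∑ l ∈ range k, algebraMap ℂ R[X] (c l) * (hm P 2) ^ (k - l) * hm (y l) (2 * l + e) := by
  rw [h]
  unfold hm
  rw [map_sum, Finset.sum_mul]
  apply Finset.sum_congr rfl
  intro l hl
  have hl' : l < k := Finset.mem_range.1 hl
  have h2 : 2 * k + e = 2 * (k - l) + (2 * l + e) := by omega
  rw [h2, Polynomial.algebraMap_apply, map_mul, map_mul, map_pow, mul_pow, ← pow_mul, pow_add]
  ring

end ItemSHom

open ItemSHom Polynomial in
theorem sHom : SHom := by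
  intro R _ _ d D hD n k c u γ P ρ σ ζ η h
  refine ⟨⟨?_, ?_, ?_, ?_, ?_, ?_, ?_, ?_, ?_, ?_, ?_, ?_, ?_, ?_⟩, ?_⟩
  · rw [hD, Derivation.map_one_eq_zero, hm_zero]
  · rw [hD, h.dP]
    simp only [hm, map_mul, map_ofNat]
    ring
  · rw [hD, h.du]
    simp only [hm, map_mul, map_add, map_sub, map_natCast, map_one, map_pow]
    ring
  · rw [hD, h.dγ]
    simp only [hm, map_mul, map_add, map_sub, map_natCast, map_one, map_pow]
    ring
  · intro j h1 h2
    rw [hD, h.dρ j h1 h2]
    simp only [hm, map_mul, map_add, map_sub, map_natCast, map_one, map_pow, map_ofNat]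
    ring
  · intro j h1 h2
    rw [hD, h.dσ j h1 h2]
    simp only [hm, map_mul, map_add, map_sub, map_natCast, map_one, map_pow, map_ofNat]
    ring
  · intro j h1 h2
    rw [hD, h.dζ j h1 h2]
    simp only [hm, map_mul, map_add, map_sub, map_natCast, map_one, map_pow, map_ofNat]
    ring
  · intro j h1 h2
    rw [hD, h.dη j h1 h2]
    simp only [hm, map_mul, map_add, map_sub, map_natCast, map_one, map_pow, map_ofNat]
    ring
  · show hm (ρ 0) (2 * 0) = 1
    rw [h.r0]
    simp [hm]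
  · exact sum_aux k c P (ρ k) ρ 0 h.rρ
  · have h2 := sum_aux k c P (ρ (k + 1)) (fun l => ρ (l + 1)) 2 h.rρ'
    exact h2
  · have h2 := sum_aux k c P (ζ (k + 1)) (fun l => ζ (l + 1)) 2 h.rζ'
    exact h2
  · have h2 := congrArg (fun x => C x * (X : R[X]) ^ 2) h.ab
    simp only [map_add, map_pow, map_one] at h2
    simp only [hm, map_one]
    linear_combination h2
  · have h2 := congrArg (fun x => C x * (X : R[X]) ^ 3) h.uv
    simp only [map_add, map_mul, map_zero] at h2
    simp only [hm]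
    linear_combination h2
  · intro i
    rcases i with i | ⟨a, b⟩
    · fin_cases i <;> rfl
    · fin_cases a <;> rfl

end Pool.Agent.Work.MP_157c12_gt.RA

end

section

/-!
# Rotational hypersurfaces of finite type, algebraic part: the subalgebra generated by the
variables is differential
-/

open Finset

namespace Pool.Agent.Work.MP_157c12_gt.RA

namespace ItemSAdj

variable {A : Type} [CommRing A] [Algebra ℂ A]

/-- natural numbers lie in every subalgebra -/
theorem nat_mem (B : Subalgebra ℂ A) (n : ℕ) : (n : A) ∈ B := by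
  exact_mod_cast natCast_mem B n

end ItemSAdj

theorem sAdj : SAdj := by
  intro A _ _ D n k c κ u γ P ρ σ ζ η hk h
  set B := Algebra.adjoin ℂ (Set.range (gen k κ u γ P ρ σ ζ η)) with hB
  have hg : ∀ i, gen k κ u γ P ρ σ ζ η i ∈ B := fun i => Algebra.subset_adjoin ⟨i, rfl⟩
  have hκ : κ ∈ B := hg (Sum.inl 0)
  have hu : u ∈ B := hg (Sum.inl 1)
  have hγ : γ ∈ B := hg (Sum.inl 2)
  have hP : P ∈ B := hg (Sum.inl 3)
  have idx : ∀ j, 1 ≤ j → j ≤ k → ∃ j' : Fin k, (j' : ℕ) + 1 = j := fun j h1 h2 =>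
    ⟨⟨j - 1, by omega⟩, by simp; omega⟩
  have hρ : ∀ j, 1 ≤ j → j ≤ k → ρ j ∈ B := by
    intro j h1 h2
    obtain ⟨j', rfl⟩ := idx j h1 h2
    exact hg (Sum.inr (0, j'))
  have hσ : ∀ j, 1 ≤ j → j ≤ k → σ j ∈ B := by
    intro j h1 h2
    obtain ⟨j', rfl⟩ := idx j h1 h2
    exact hg (Sum.inr (1, j'))
  have hζ : ∀ j, 1 ≤ j → j ≤ k → ζ j ∈ B := by
    intro j h1 h2
    obtain ⟨j', rfl⟩ := idx j h1 h2
    exact hg (Sum.inr (2, j'))
  have hη : ∀ j, 1 ≤ j → j ≤ k → η j ∈ B := by
    intro j h1 h2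
    obtain ⟨j', rfl⟩ := idx j h1 h2
    exact hg (Sum.inr (3, j'))
  have hρ' : ρ (k + 1) ∈ B := by
    rw [h.rρ']
    refine sum_mem fun l hl => ?_
    have := Finset.mem_range.mp hl
    exact mul_mem (mul_mem (B.algebraMap_mem _) (pow_mem hP _)) (hρ _ (by omega) (by omega))
  have hζ' : ζ (k + 1) ∈ B := by
    rw [h.rζ']
    refine sum_mem fun l hl => ?_
    have := Finset.mem_range.mp hl
    exact mul_mem (mul_mem (B.algebraMap_mem _) (pow_mem hP _)) (hζ _ (by omega) (by omega))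
  have hρs : ∀ j, 1 ≤ j → j ≤ k → ρ (j + 1) ∈ B := by
    intro j h1 h2
    rcases Nat.lt_or_ge j k with h3 | h3
    · exact hρ _ (by omega) (by omega)
    · have : j = k := by omega
      rw [this]; exact hρ'
  have hζs : ∀ j, 1 ≤ j → j ≤ k → ζ (j + 1) ∈ B := by
    intro j h1 h2
    rcases Nat.lt_or_ge j k with h3 | h3
    · exact hζ _ (by omega) (by omega)
    · have : j = k := by omega
      rw [this]; exact hζ'
  have hn : ∀ m : ℕ, (m : A) ∈ B := ItemSAdj.nat_mem B
  have h2 : (2 : A) ∈ B := by exact_mod_cast hn 2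
  have hc1 : ∀ j : ℕ, (2 * (j : A) - 1) ∈ B := fun j => sub_mem (mul_mem h2 (hn j)) (one_mem B)
  have hc2 : ∀ j : ℕ, (2 * (j : A) + 1 - n) ∈ B := fun j =>
    sub_mem (add_mem (mul_mem h2 (hn j)) (one_mem B)) (hn n)
  have hc3 : ((n : A) - 1) ∈ B := sub_mem (hn n) (one_mem B)
  refine ⟨hρ', hζ', fun a ha => ?_⟩
  refine Algebra.adjoin_induction (p := fun a _ => D a ∈ B) ?_ ?_ ?_ ?_ ha
  · rintro _ ⟨i, rfl⟩
    rcases i with i | ⟨i, j⟩
    · fin_cases i
      · change D κ ∈ B
        rw [h.dκ]; exact zero_mem B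
      · change D u ∈ B
        rw [h.du]
        exact sub_mem (add_mem (mul_mem hc3 hκ) (hρ 1 le_rfl hk)) (mul_mem hc3 (pow_mem hu 2))
      · change D γ ∈ B
        rw [h.dγ]
        exact sub_mem (hζ 1 le_rfl hk) (mul_mem (mul_mem hc3 hu) hγ)
      · change D P ∈ B
        rw [h.dP]
        exact mul_mem (mul_mem h2 hu) hP
    · have hj1 : 1 ≤ (j : ℕ) + 1 := by omega
      have hj2 : (j : ℕ) + 1 ≤ k := by have := j.2; omega
      fin_cases i
      · change D (ρ ((j : ℕ) + 1)) ∈ B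
        rw [h.dρ _ hj1 hj2]
        exact add_mem (mul_mem (mul_mem (hc1 _) hu) (hρ _ hj1 hj2)) (hσ _ hj1 hj2)
      · change D (σ ((j : ℕ) + 1)) ∈ B
        rw [h.dσ _ hj1 hj2]
        exact add_mem (add_mem (mul_mem (mul_mem (hc2 _) hu) (hσ _ hj1 hj2))
          (mul_mem (mul_mem hc3 hκ) (hρ _ hj1 hj2))) (hρs _ hj1 hj2)
      · change D (ζ ((j : ℕ) + 1)) ∈ B
        rw [h.dζ _ hj1 hj2]
        exact add_mem (mul_mem (mul_mem (hc1 _) hu) (hζ _ hj1 hj2)) (hη _ hj1 hj2)
      · change D (η ((j : ℕ) + 1)) ∈ B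
        rw [h.dη _ hj1 hj2]
        exact add_mem (mul_mem (mul_mem (hc2 _) hu) (hη _ hj1 hj2)) (hζs _ hj1 hj2)
  · intro r
    rw [D.map_algebraMap]; exact zero_mem B
  · intro x y _ _ hx hy
    rw [map_add]; exact add_mem hx hy
  · intro x y hx' hy' hx hy
    rw [D.leibniz, smul_eq_mul, smul_eq_mul]
    exact add_mem (mul_mem hx' hy) (mul_mem hy' hx)

end Pool.Agent.Work.MP_157c12_gt.RA

end

section

/-! Item SSub: the system in the subalgebra generated by the variables. -/

set_option autoImplicit false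

open Finset

namespace Pool.Agent.Work.MP_157c12_gt.RA

namespace ItemSSub

variable {A : Type} [CommRing A] [Algebra ℂ A]

/-- the restricted derivation -/
noncomputable def der (D : Derivation ℂ A A) (B : Subalgebra ℂ A) (hD : ∀ a ∈ B, D a ∈ B) :
    Derivation ℂ B B :=
  Derivation.mk' { toFun := fun b => ⟨D b, hD b b.2⟩
                   map_add' := fun x y => Subtype.ext (by simp)
                   map_smul' := fun r x => Subtype.ext (by simp) }
    (fun a b => Subtype.ext (by simp))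

theorem val_der (D : Derivation ℂ A A) (B : Subalgebra ℂ A) (hD : ∀ a ∈ B, D a ∈ B) (b : B) :
    B.val (der D B hD b) = D (B.val b) := rfl

open Classical in
/-- a lift of an element -/
noncomputable def lft (B : Subalgebra ℂ A) (a : A) : B := if h : a ∈ B then ⟨a, h⟩ else 0

theorem val_lft (B : Subalgebra ℂ A) {a : A} (h : a ∈ B) : B.val (lft B a) = a := by
  unfold lft
  rw [dif_pos h]
  rfl

end ItemSSub

open ItemSSub in
theorem sSub (h : SAdj) : SSub := by
  intro A _ _ D n k c κ u γ P ρ σ ζ η hk hS B hB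
  obtain ⟨hρk, hζk, hD⟩ := h A D n k c κ u γ P ρ σ ζ η hk hS
  rw [← hB] at hρk hζk hD
  have hg : ∀ i, gen k κ u γ P ρ σ ζ η i ∈ B := fun i => by
    rw [hB]
    exact Algebra.subset_adjoin ⟨i, rfl⟩
  have mκ : κ ∈ B := hg (Sum.inl 0)
  have mu : u ∈ B := hg (Sum.inl 1)
  have mγ : γ ∈ B := hg (Sum.inl 2)
  have mP : P ∈ B := hg (Sum.inl 3)
  have mρ' : ∀ j, 1 ≤ j → j ≤ k → ρ j ∈ B := fun j h1 h2 => by
    have := hg (Sum.inr (0, ⟨j - 1, by omega⟩))
    simpa [gen, Nat.sub_add_cancel h1] using this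
  have mσ : ∀ j, 1 ≤ j → j ≤ k → σ j ∈ B := fun j h1 h2 => by
    have := hg (Sum.inr (1, ⟨j - 1, by omega⟩))
    simpa [gen, Nat.sub_add_cancel h1] using this
  have mζ' : ∀ j, 1 ≤ j → j ≤ k → ζ j ∈ B := fun j h1 h2 => by
    have := hg (Sum.inr (2, ⟨j - 1, by omega⟩))
    simpa [gen, Nat.sub_add_cancel h1] using this
  have mη : ∀ j, 1 ≤ j → j ≤ k → η j ∈ B := fun j h1 h2 => by
    have := hg (Sum.inr (3, ⟨j - 1, by omega⟩))
    simpa [gen, Nat.sub_add_cancel h1] using this
  have mρ : ∀ j, j ≤ k + 1 → ρ j ∈ B := fun j h1 => by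
    rcases Nat.eq_zero_or_pos j with rfl | h0
    · rw [hS.r0]
      exact one_mem B
    · rcases Nat.lt_or_ge k j with h2 | h2
      · obtain rfl : j = k + 1 := by omega
        exact hρk
      · exact mρ' j h0 h2
  have mζ : ∀ j, 1 ≤ j → j ≤ k + 1 → ζ j ∈ B := fun j h0 h1 => by
    rcases Nat.lt_or_ge k j with h2 | h2
    · obtain rfl : j = k + 1 := by omega
      exact hζk
    · exact mζ' j h0 h2
  have hinj : Function.Injective B.val := Subtype.val_injective
  have vκ := val_lft B mκ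
  have vu := val_lft B mu
  have vγ := val_lft B mγ
  have vP := val_lft B mP
  refine ⟨der D B hD, lft B κ, lft B u, lft B γ, lft B P, fun j => lft B (ρ j),
    fun j => lft B (σ j), fun j => lft B (ζ j), fun j => lft B (η j), ?_, ?_⟩
  · constructor
    · apply hinj
      rw [val_der, vκ, hS.dκ, map_zero]
    · apply hinj
      simp only [val_der, vP, vu, map_mul, map_ofNat]
      exact hS.dP
    · apply hinj
      simp only [val_der, vu, vκ, map_mul, map_sub, map_add, map_pow, map_natCast, map_one,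
        val_lft B (mρ 1 (by omega))]
      exact hS.du
    · apply hinj
      simp only [val_der, vu, vγ, map_mul, map_sub, map_natCast, map_one,
        val_lft B (mζ 1 le_rfl (by omega))]
      exact hS.dγ
    · intro j h1 h2
      apply hinj
      simp only [val_der, vu, map_mul, map_sub, map_add, map_natCast, map_one, map_ofNat,
        val_lft B (mρ j (by omega)), val_lft B (mσ j h1 h2)]
      exact hS.dρ j h1 h2
    · intro j h1 h2
      apply hinj
      simp only [val_der, vu, vκ, map_mul, map_sub, map_add, map_natCast, map_one, map_ofNat,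
        val_lft B (mρ j (by omega)), val_lft B (mρ (j + 1) (by omega)), val_lft B (mσ j h1 h2)]
      exact hS.dσ j h1 h2
    · intro j h1 h2
      apply hinj
      simp only [val_der, vu, map_mul, map_sub, map_add, map_natCast, map_one, map_ofNat,
        val_lft B (mζ j h1 (by omega)), val_lft B (mη j h1 h2)]
      exact hS.dζ j h1 h2
    · intro j h1 h2
      apply hinj
      simp only [val_der, vu, map_mul, map_sub, map_add, map_natCast, map_one, map_ofNat,
        val_lft B (mζ (j + 1) (by omega) (by omega)), val_lft B (mη j h1 h2)]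
      exact hS.dη j h1 h2
    · apply hinj
      rw [val_lft B (mρ 0 (by omega)), map_one, hS.r0]
    · apply hinj
      rw [val_lft B (mρ k (by omega)), map_sum, hS.rρ]
      refine Finset.sum_congr rfl fun l hl => ?_
      have hl' := Finset.mem_range.1 hl
      rw [map_mul, map_mul, map_pow, vP, val_lft B (mρ l (by omega)), AlgHom.commutes]
    · apply hinj
      rw [val_lft B (mρ (k + 1) le_rfl), map_sum, hS.rρ']
      refine Finset.sum_congr rfl fun l hl => ?_
      have hl' := Finset.mem_range.1 hl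
      rw [map_mul, map_mul, map_pow, vP, val_lft B (mρ (l + 1) (by omega)), AlgHom.commutes]
    · apply hinj
      rw [val_lft B (mζ (k + 1) (by omega) le_rfl), map_sum, hS.rζ']
      refine Finset.sum_congr rfl fun l hl => ?_
      have hl' := Finset.mem_range.1 hl
      rw [map_mul, map_mul, map_pow, vP, val_lft B (mζ (l + 1) (by omega) (by omega)),
        AlgHom.commutes]
    · apply hinj
      rw [map_add, map_pow, map_pow, vu, vγ, vκ, hS.ab]
    · apply hinj
      rw [map_add, map_mul, map_mul, vu, vγ, val_lft B (mρ 1 (by omega)),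
        val_lft B (mζ 1 le_rfl (by omega)), map_zero, hS.uv]
  · rintro (i | ⟨i, j⟩)
    · fin_cases i
      · exact vκ
      · exact vu
      · exact vγ
      · exact vP
    · fin_cases i
      · exact val_lft B (mρ _ (by omega))
      · exact val_lft B (mσ _ (by omega) (by omega))
      · exact val_lft B (mζ _ (by omega) (by omega))
      · exact val_lft B (mη _ (by omega) (by omega))

end Pool.Agent.Work.MP_157c12_gt.RA

end

section

/-!
# Rotational hypersurfaces of finite type, algebraic part: item SInt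
-/

set_option autoImplicit false

open Finset

namespace Pool.Agent.Work.MP_157c12_gt.RA

namespace ItemSInt

theorem adjoin_top {A S : Type} [CommRing A] [Algebra ℂ A] (B : Subalgebra ℂ A) (y : S → A)
    (hB : B = Algebra.adjoin ℂ (Set.range y)) (x : S → B) (h : ∀ i, ((x i : B) : A) = y i) :
    Algebra.adjoin ℂ (Set.range x) = ⊤ := by
  apply Subalgebra.map_injective (f := B.val) Subtype.val_injective
  rw [AlgHom.map_adjoin, Algebra.map_top, Subalgebra.range_val]
  refine Eq.trans ?_ hB.symm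
  congr 1
  ext a
  simp only [Set.mem_image, Set.mem_range, exists_exists_eq_and]
  constructor
  · rintro ⟨i, rfl⟩
    exact ⟨i, (h i).symm⟩
  · rintro ⟨i, rfl⟩
    exact ⟨i, h i⟩

theorem comb {A : Type} [CommRing A] [Algebra ℂ A] (B : Subalgebra ℂ A) (a b κ u x : B) (m : ℕ)
    (h : a * κ + b * u = x ^ m) {X K U : A} (hx : (x : A) = X) (hκ : (κ : A) = K)
    (hu : (u : A) = U) : X ^ m = (a : A) * K + (b : A) * U := by
  subst hx hκ hu
  exact (congrArg Subtype.val h).symm

theorem wgt_pos (k : ℕ) (i : Fin 4 ⊕ (Fin 4 × Fin k)) : 1 ≤ wgt k i := by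
  rcases i with i | ⟨i, j⟩
  · fin_cases i <;> simp [wgt]
  · fin_cases i <;> simp [wgt] <;> omega

end ItemSInt

theorem sInt (h1 : SStar) (h2 : SNS) (h3 : SNK) (h4 : SDX) (h5 : SHom) (h6 : SSub) : SInt := by
  intro n k c u γ P ρ σ ζ η hsys hc hk
  obtain ⟨D, hD⟩ := h4 (PowerSeries ℂ) (PowerSeries.derivative ℂ)
  obtain ⟨hsysX, hgen⟩ := h5 (PowerSeries ℂ) (PowerSeries.derivative ℂ) D hD n k c u γ P ρ σ ζ η hsys
  obtain ⟨D', κ', u', γ', P', ρ', σ', ζ', η', hsysB, hcoe⟩ :=
    h6 (Polynomial (PowerSeries ℂ)) D n k c _ _ _ _ _ _ _ _ hk hsysX _ rfl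
  have hx : ∀ i, ((gen k κ' u' γ' P' ρ' σ' ζ' η' i :
      Algebra.adjoin ℂ (Set.range (gen k (hm 1 2) (hm u 1) (hm γ 1) (hm P 2)
        (fun j => hm (ρ j) (2 * j)) (fun j => hm (σ j) (2 * j + 1)) (fun j => hm (ζ j) (2 * j))
        (fun j => hm (η j) (2 * j + 1))))) : Polynomial (PowerSeries ℂ)) =
      hm (gen k 1 u γ P ρ σ ζ η i) (wgt k i) := fun i => (hcoe i).trans (hgen i)
  have hκ : κ' ≠ 0 := by
    intro h
    have h7 := hx (Sum.inl 0)
    change ((κ' : _) : Polynomial (PowerSeries ℂ)) = hm 1 2 at h7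
    rw [h] at h7
    have h8 : (hm 1 2 : Polynomial (PowerSeries ℂ)) ≠ 0 := by
      rw [hm, map_one, one_mul]
      exact pow_ne_zero 2 Polynomial.X_ne_zero
    exact h8 h7.symm
  have htop := ItemSInt.adjoin_top _ _ rfl (gen k κ' u' γ' P' ρ' σ' ζ' η') hcoe
  have hq := h1 _ D' n k c κ' u' γ' P' ρ' σ' ζ' η' hsysB hc hk hκ
  have hns := h2 _ _ (gen k κ' u' γ' P' ρ' σ' ζ' η') htop κ' u' hq
  have hset : Set.range (gen k (hm 1 2) (hm u 1) (hm γ 1) (hm P 2)
        (fun j => hm (ρ j) (2 * j)) (fun j => hm (σ j) (2 * j + 1)) (fun j => hm (ζ j) (2 * j))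
        (fun j => hm (η j) (2 * j + 1))) =
      Set.range (fun j => hm (gen k 1 u γ P ρ σ ζ η j) (wgt k j)) := by
    congr 1
    exact funext hgen
  refine h3 (Fin 4 ⊕ (Fin 4 × Fin k)) (PowerSeries ℂ) (wgt k) (gen k 1 u γ P ρ σ ζ η) (Sum.inl 0)
    (Sum.inl 1) (ItemSInt.wgt_pos k) ?_
  intro i
  obtain ⟨m, hm'⟩ := hns i
  obtain ⟨a, b, hab⟩ := Ideal.mem_span_pair.1 hm'
  refine ⟨m, a, ?_, b, ?_, ?_⟩
  · rw [← hset]
    exact a.2
  · rw [← hset]
    exact b.2
  · exact ItemSInt.comb _ a b κ' u' _ m hab (hx i) (hx (Sum.inl 0)) (hx (Sum.inl 1))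

end Pool.Agent.Work.MP_157c12_gt.RA

end

section

/-!
# Rotational hypersurfaces of finite type, algebraic part: item SSys
-/

set_option autoImplicit false

open Finset

namespace Pool.Agent.Work.MP_157c12_gt.RA

namespace ItemSSys

section

variable {A : Type} [CommRing A] [Algebra ℂ A] (D : Derivation ℂ A A)

theorem Dalg (c : ℂ) (x : A) : D (algebraMap ℂ A c * x) = algebraMap ℂ A c * D x := by
  rw [D.leibniz, D.map_algebraMap, smul_zero, add_zero, smul_eq_mul]

theorem Dpow {u P : A} (h : D P = 2 * u * P) (j : ℕ) : D (P ^ j) = 2 * (j : A) * u * P ^ j := by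
  induction j with
  | zero => simp
  | succ j ih =>
    rw [pow_succ, D.leibniz, ih, h, smul_eq_mul, smul_eq_mul]
    push_cast
    ring

theorem Dterm {u P fi : A} (h : D P = 2 * u * P) (hfi : D fi = -(u * fi)) (j : ℕ) (x : A) :
    D (P ^ j * fi * x) = (2 * (j : A) - 1) * u * (P ^ j * fi * x) + P ^ j * fi * D x := by
  rw [D.leibniz, D.leibniz, Dpow D h, hfi]
  simp only [smul_eq_mul]
  ring

theorem cancel {f fi x y : A} (h : f * fi = 1) (hxy : f ^ 2 * x = f ^ 2 * y) : x = y := by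
  linear_combination fi ^ 2 * hxy + (y - x) * (f * fi + 1) * h

theorem rel {P fi : A} {R : ℕ → A} {k : ℕ} {c : ℕ → ℂ}
    (h : R k = ∑ l ∈ range k, algebraMap ℂ A (c l) * R l) :
    P ^ k * fi * R k = ∑ l ∈ range k, algebraMap ℂ A (c l) * P ^ (k - l) * (P ^ l * fi * R l) := by
  rw [h, Finset.mul_sum]
  refine Finset.sum_congr rfl fun l hl => ?_
  have hk : P ^ k = P ^ (k - l) * P ^ l := by
    rw [← pow_add, Nat.sub_add_cancel (Finset.mem_range.1 hl).le]
  rw [hk]
  ring

theorem rel' {P fi : A} {R : ℕ → A} {k : ℕ} {c : ℕ → ℂ}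
    (h : R (k + 1) = ∑ l ∈ range k, algebraMap ℂ A (c l) * R (l + 1)) :
    P ^ (k + 1) * fi * R (k + 1) =
      ∑ l ∈ range k, algebraMap ℂ A (c l) * P ^ (k - l) * (P ^ (l + 1) * fi * R (l + 1)) := by
  rw [h, Finset.mul_sum]
  refine Finset.sum_congr rfl fun l hl => ?_
  have hk : P ^ (k + 1) = P ^ (k - l) * P ^ (l + 1) := by
    rw [← pow_add]
    congr 1
    have := Finset.mem_range.1 hl
    omega
  rw [hk]
  ring

theorem shift {f fi u a b : A} {R : ℕ → A} {k : ℕ} {c : ℕ → ℂ} (hf : f * fi = 1)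
    (hR : ∀ j, f ^ 2 * R (j + 1) = D (D (R j)) + a * u * D (R j) - b * R j)
    (h : R k = ∑ l ∈ range k, algebraMap ℂ A (c l) * R l) :
    R (k + 1) = ∑ l ∈ range k, algebraMap ℂ A (c l) * R (l + 1) := by
  apply cancel hf
  have h1 : D (R k) = ∑ l ∈ range k, algebraMap ℂ A (c l) * D (R l) := by
    rw [h, map_sum]
    exact Finset.sum_congr rfl fun l _ => Dalg D _ _
  have h2 : D (D (R k)) = ∑ l ∈ range k, algebraMap ℂ A (c l) * D (D (R l)) := by
    rw [h1, map_sum]
    exact Finset.sum_congr rfl fun l _ => Dalg D _ _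
  have h3 : b * R k = ∑ l ∈ range k, b * (algebraMap ℂ A (c l) * R l) := by
    rw [h, Finset.mul_sum]
  rw [hR k, h2, h1, h3, Finset.mul_sum, Finset.mul_sum, ← Finset.sum_add_distrib,
    ← Finset.sum_sub_distrib]
  refine Finset.sum_congr rfl fun l _ => ?_
  linear_combination (-(algebraMap ℂ A (c l))) * hR l

end

end ItemSSys

open ItemSSys in
theorem sSys : SSys := by
  intro A _ _ D u γ f fi R Z n k c hf hR0 hDf hDZ hug hR hZ hRk hZk
  have hDfi : D fi = -(u * fi) := by
    have h := congrArg D hf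
    rw [D.leibniz, D.map_one_eq_zero, hDf] at h
    simp only [smul_eq_mul] at h
    linear_combination fi * h - (D fi + u * fi) * hf
  have hDP : D (f ^ 2) = 2 * u * f ^ 2 := by
    rw [pow_two, D.leibniz, hDf]
    simp only [smul_eq_mul]
    ring
  have hDDf : D (D f) = u * (u * f) + f * D u := by
    rw [hDf, D.leibniz, hDf]
    simp only [smul_eq_mul]
  have hDDZ : D (D (Z 0)) = γ * (u * f) + f * D γ := by
    rw [hDZ, D.leibniz, hDf]
    simp only [smul_eq_mul]
  have hdu : D u = ((n : A) - 1) * 1 + (f ^ 2) ^ 1 * fi * R 1 - ((n : A) - 1) * u ^ 2 := by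
    have h := hR 0
    rw [hR0, hDDf, hDf] at h
    linear_combination (-fi) * h +
      (-(u ^ 2) - D u - ((n : A) - 2) * u ^ 2 + ((n : A) - 1)) * hf
  have hdγ : D γ = (f ^ 2) ^ 1 * fi * Z 1 - ((n : A) - 1) * u * γ := by
    have h := hZ 0
    rw [hDDZ, hDZ] at h
    linear_combination (-fi) * h + (-(γ * u) - D γ - ((n : A) - 2) * u * γ) * hf
  have hR' : ∀ j, f ^ 2 * R (j + 1) =
      D (D (R j)) + ((n : A) - 2) * u * D (R j) - ((n : A) - 1) * R j := hR
  have hZ' : ∀ j, f ^ 2 * Z (j + 1) =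
      D (D (Z j)) + ((n : A) - 2) * u * D (Z j) - 0 * Z j := fun j => by
    rw [hZ j, zero_mul, sub_zero]
  refine ⟨⟨?_, hDP, hdu, hdγ, ?_, ?_, ?_, ?_, ?_, rel hRk, rel' (shift D hf hR' hRk),
    rel' (shift D hf hZ' hZk), hug, ?_⟩, rel hZk⟩
  · exact D.map_one_eq_zero
  · intro j _ _
    exact Dterm D hDP hDfi j (R j)
  · intro j _ _
    show D ((f ^ 2) ^ j * fi * D (R j)) = _
    rw [Dterm D hDP hDfi j]
    linear_combination (-((f ^ 2) ^ j * fi)) * hR j
  · intro j _ _
    exact Dterm D hDP hDfi j (Z j)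
  · intro j _ _
    show D ((f ^ 2) ^ j * fi * D (Z j)) = _
    rw [Dterm D hDP hDfi j]
    linear_combination (-((f ^ 2) ^ j * fi)) * hZ j
  · show (f ^ 2) ^ 0 * fi * R 0 = 1
    rw [hR0, pow_zero, one_mul, mul_comm]
    exact hf
  · show u * ((f ^ 2) ^ 1 * fi * R 1) + γ * ((f ^ 2) ^ 1 * fi * Z 1) = 0
    have h := congrArg D hug
    rw [D.map_one_eq_zero, map_add, pow_two, pow_two, D.leibniz, D.leibniz] at h
    simp only [smul_eq_mul] at h
    have h2 : algebraMap ℂ A (1 / 2) * 2 = 1 := by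
      rw [← map_ofNat (algebraMap ℂ A) 2, ← map_mul]
      norm_num
    have h3 : 2 * (u * ((f ^ 2) ^ 1 * fi * R 1) + γ * ((f ^ 2) ^ 1 * fi * Z 1)) = 0 := by
      linear_combination h - 2 * u * hdu - 2 * γ * hdγ + 2 * ((n : A) - 1) * u * hug
    linear_combination algebraMap ℂ A (1 / 2) * h3 -
      (u * ((f ^ 2) ^ 1 * fi * R 1) + γ * ((f ^ 2) ^ 1 * fi * Z 1)) * h2

end Pool.Agent.Work.MP_157c12_gt.RA

end

section

namespace Pool.Agent.Work.MP_157c12_gt.RA

namespace ItemSDeh

lemma int_map {A B : Type} [CommRing A] [Algebra ℂ A] [CommRing B] [Algebra ℂ B] (φ : A →ₐ[ℂ] B)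
    (S : Subalgebra ℂ A) (S' : Subalgebra ℂ B) (h : ∀ s ∈ S, φ s ∈ S') (a : A)
    (ha : IsIntegral S a) : IsIntegral S' (φ a) := by
  obtain ⟨p, hp, hpa⟩ := ha
  let ψ : S →+* S' := ((φ.comp S.val).codRestrict S' (fun s => h s.1 s.2) : S →ₐ[ℂ] S')
  refine ⟨p.map ψ, hp.map ψ, ?_⟩
  rw [Polynomial.eval₂_map]
  have e : (algebraMap S' B).comp ψ = (φ : A →+* B).comp (algebraMap S A) := rfl
  rw [e]
  have h2 : Polynomial.eval₂ ((φ : A →+* B).comp (algebraMap S A)) (φ a) p =
      (φ : A →+* B) (Polynomial.eval₂ (algebraMap S A) a p) := by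
    rw [Polynomial.hom_eval₂]
    rfl
  rw [h2, hpa, map_zero]

/-- evaluation at `z` -/
noncomputable def ev {R K : Type} [CommRing R] [Algebra ℂ R] [Field K] [Algebra ℂ K]
    (T : R →ₐ[ℂ] K) (z : K) : Polynomial R →ₐ[ℂ] K :=
  Polynomial.aevalTower T z

lemma ev_hm {R K : Type} [CommRing R] [Algebra ℂ R] [Field K] [Algebra ℂ K]
    (T : R →ₐ[ℂ] K) (z : K) (s : R) (w : ℕ) : ev T z (hm s w) = T s * z ^ w := by
  simp [ev, hm]

end ItemSDeh

open ItemSDeh in
theorem sDeh : SDeh := by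
  intro R K _ _ _ _ T u x w h
  constructor
  · have h1 := int_map (ev T 1) _ (Algebra.adjoin ℂ ({T u} : Set K)) ?_ _ h
    · rwa [ev_hm, one_pow, mul_one] at h1
    · have hle : Algebra.adjoin ℂ ({hm 1 2, hm u 1} : Set (Polynomial R)) ≤
          (Algebra.adjoin ℂ ({T u} : Set K)).comap (ev T 1) := by
        rw [Algebra.adjoin_le_iff]
        rintro y (rfl | rfl)
        · rw [SetLike.mem_coe, Subalgebra.mem_comap, ev_hm, one_pow, mul_one, map_one]
          exact Subalgebra.one_mem _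
        · rw [SetLike.mem_coe, Subalgebra.mem_comap, ev_hm, one_pow, mul_one]
          exact Algebra.self_mem_adjoin_singleton ℂ (T u)
      intro s hs
      exact hle hs
  · intro hu
    have h1 := int_map (ev T (T u)⁻¹) _ (Algebra.adjoin ℂ ({(T u)⁻¹} : Set K)) ?_ _ h
    · rwa [ev_hm, inv_pow, ← div_eq_mul_inv] at h1
    · have hle : Algebra.adjoin ℂ ({hm 1 2, hm u 1} : Set (Polynomial R)) ≤
          (Algebra.adjoin ℂ ({(T u)⁻¹} : Set K)).comap (ev T (T u)⁻¹) := by
        rw [Algebra.adjoin_le_iff]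
        rintro y (rfl | rfl)
        · rw [SetLike.mem_coe, Subalgebra.mem_comap, ev_hm, map_one, one_mul]
          exact Subalgebra.pow_mem _ (Algebra.self_mem_adjoin_singleton ℂ (T u)⁻¹) 2
        · rw [SetLike.mem_coe, Subalgebra.mem_comap, ev_hm, pow_one, mul_inv_cancel₀ hu]
          exact Subalgebra.one_mem _
      intro s hs
      exact hle hs

end Pool.Agent.Work.MP_157c12_gt.RA

end

section

/-!
# Rotational hypersurfaces of finite type, algebraic part: item SPrf
-/

set_option autoImplicit false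

open Finset

namespace Pool.Agent.Work.MP_157c12_gt.RA

theorem sPrf (h1 : SInt) (h2 : SSys) (h3 : SLau) (h4 : SDeh) (h5 : SMap) : SPrf := by
  intro u γ f R Z n k c hn hk hc hf0 hR0 hDf hDZ hug hR hZ hRk hZk
  obtain ⟨K, instF, instA, D, T, hT, hTD⟩ := h3
  have hunit : IsUnit f := PowerSeries.isUnit_iff_constantCoeff.2 (isUnit_iff_ne_zero.2 hf0)
  obtain ⟨fi, hfi⟩ := hunit.exists_right_inv
  obtain ⟨hsys, hrel⟩ := h2 (PowerSeries ℂ) (PowerSeries.derivative ℂ) u γ f fi R Z n k c hfi hR0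
    hDf hDZ hug hR hZ hRk hZk
  obtain ⟨hsysK, hgen⟩ := h5 (PowerSeries ℂ) K (PowerSeries.derivative ℂ) D T hTD n k c 1 u γ
    (f ^ 2) _ _ _ _ hsys
  rw [map_one, map_pow] at hsysK
  simp only [map_one, map_pow T f 2] at hgen
  have hint := h1 n k c u γ (f ^ 2) _ _ _ _ hsys hc hk
  have hf : f ≠ 0 := hunit.ne_zero
  refine ⟨K, instF, instA, D, T, _, _, _, _, hT, hTD, ⟨hsysK, hn, hk, hc, ?_, ?_, ?_, ?_, ?_, ?_, ?_⟩⟩
  · intro h
    exact hf (hT (by rw [h, map_zero]))
  · rw [← hTD, hDf, map_mul]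
  · rw [← hTD, hDZ, map_mul]
  · show T f * T ((f ^ 2) ^ 0 * fi * Z 0) = T (Z 0)
    rw [← map_mul]
    congr 1
    linear_combination Z 0 * hfi
  · show T ((f ^ 2) ^ k * fi * Z k) = _
    rw [hrel, map_sum]
    refine Finset.sum_congr rfl fun l _ => ?_
    rw [map_mul, map_mul, map_pow, map_pow, AlgHom.commutes]
  · intro i
    rw [hgen i]
    exact (h4 (PowerSeries ℂ) K T u _ _ (hint i)).1
  · intro hu i
    rw [hgen i]
    exact (h4 (PowerSeries ℂ) K T u _ _ (hint i)).2 hu

end Pool.Agent.Work.MP_157c12_gt.RA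

end

section

/-!
# Rotational hypersurfaces of finite type, algebraic part: item SLau
-/

set_option autoImplicit false

open Finset

namespace Pool.Agent.Work.MP_157c12_gt.RA

namespace ItemSLau

section

variable {Γ : Type} [AddCommGroup Γ] [LinearOrder Γ] [IsOrderedAddMonoid Γ]

/-- a logarithmic derivation times a monomial -/
noncomputable def ddg (g : Γ) (φ : Γ →+ ℂ) : Derivation ℂ (Hn Γ) (Hn Γ) :=
  (HahnSeries.single g (1 : ℂ) : Hn Γ) • hd φ

theorem ddg_coeff (g : Γ) (φ : Γ →+ ℂ) (f : Hn Γ) (a : Γ) :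
    (ddg g φ f).coeff (a + g) = φ a * f.coeff a := by
  have h : (ddg g φ f).coeff (a + g) = 1 * (hd φ f).coeff a :=
    HahnSeries.coeff_single_mul_add
  rw [h, one_mul, hd_coeff]

/-- the algebra structure -/
noncomputable abbrev alg (Γ : Type) [AddCommGroup Γ] [LinearOrder Γ] [IsOrderedAddMonoid Γ] :
    Algebra ℂ (Hn Γ) := inferInstance

end

theorem dd_coeff (f : HahnSeries ℤ ℂ) (n : ℤ) :
    (ddg (-1) (Int.castAddHom ℂ) f).coeff n = ((n + 1 : ℤ) : ℂ) * f.coeff (n + 1) := by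
  have h := ddg_coeff (-1) (Int.castAddHom ℂ) f (n + 1)
  rw [add_neg_cancel_right] at h
  rw [h]
  simp

theorem T_apply (a : PowerSeries ℂ) :
    HahnSeries.ofPowerSeriesAlg ℤ ℂ a = HahnSeries.ofPowerSeries ℤ ℂ a := rfl

end ItemSLau

open ItemSLau in
theorem sLau : SLau := by
  refine ⟨Hn ℤ, inferInstance, alg ℤ, ddg (-1) (Int.castAddHom ℂ),
    HahnSeries.ofPowerSeriesAlg ℤ ℂ, ?_, ?_⟩
  · intro a b hab
    exact HahnSeries.ofPowerSeries_injective hab
  · intro a
    ext n
    rw [dd_coeff, T_apply, T_apply, PowerSeries.coeff_coe, PowerSeries.coeff_coe]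
    by_cases h1 : n < 0
    · rw [if_pos h1]
      by_cases h2 : n + 1 < 0
      · rw [if_pos h2, mul_zero]
      · have h3 : n + 1 = 0 := by omega
        rw [h3, Int.cast_zero, zero_mul]
    · rw [if_neg h1, if_neg (by omega), PowerSeries.coeff_derivative]
      have h3 : (n + 1).natAbs = n.natAbs + 1 := by omega
      have h4 : ((n.natAbs : ℕ) : ℂ) = ((n : ℤ) : ℂ) := by
        have h5 : ((n.natAbs : ℕ) : ℤ) = n := by omega
        conv_rhs => rw [← h5]
        rw [Int.cast_natCast]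
      rw [h3, h4]
      push_cast
      ring

end Pool.Agent.Work.MP_157c12_gt.RA

end

section

/-!
# Rotational hypersurfaces of finite type: the algebraic main theorem
-/

open Finset

namespace Pool.Agent.Work.MP_157c12_gt.RA

theorem sAM (h1 : SPrf) (h2 : VH) : SAM := by
  intro u γ f R Z n k c hn hk hc hf hR hdf hdZ hug hrR hrZ heR heZ
  obtain ⟨K, _, _, D, T, ρ, σ, ζ, η, hT, hTD, hP⟩ :=
    h1 u γ f R Z n k c hn hk hc hf hR hdf hdZ hug hrR hrZ heR heZ
  have h3 := h2 K D n k c (T u) (T γ) (T f) (T (Z 0)) ρ σ ζ η hP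
  apply hT
  rw [hTD, map_zero, map_add, map_pow, map_pow]
  exact h3

end Pool.Agent.Work.MP_157c12_gt.RA

end

section

/-!
# Item JT: jets at a point
-/

open Finset

namespace Pool.Agent.Work.MP_157c12_gt.RA

namespace ItemJT

/-- the relation of finite type, reindexed -/
theorem reindex {R : Type} [CommRing R] [Algebra ℝ R] (k : ℕ) (al : ℕ → ℝ) (F : ℕ → R)
    (h0 : al 0 = 1) (h : ∑ l ∈ range (k + 1), algebraMap ℝ R (al l) * F (k - l) = 0) :
    F k = ∑ l ∈ range k, algebraMap ℝ R (-al (k - l)) * F l := by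
  rw [← Finset.sum_range_reflect, Finset.sum_range_succ] at h
  have e1 : k + 1 - 1 - k = 0 := by omega
  rw [e1, h0, map_one, one_mul, Nat.sub_zero] at h
  have e2 : ∑ l ∈ range k, algebraMap ℝ R (al (k + 1 - 1 - l)) * F (k - (k + 1 - 1 - l)) =
      -∑ l ∈ range k, algebraMap ℝ R (-al (k - l)) * F l := by
    rw [← Finset.sum_neg_distrib]
    refine Finset.sum_congr rfl fun l hl => ?_
    have hl' := Finset.mem_range.1 hl
    have e3 : k - (k + 1 - 1 - l) = l := by omega
    have e4 : k + 1 - 1 - l = k - l := by omega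
    rw [e3, e4, map_neg]
    ring
  rw [e2] at h
  linear_combination h

end ItemJT

theorem jT (h1 : STay) (h2 : SAM) : Pool.Agent.Work.MP_157c12_gt.Rot.JT := by
  intro R _ _ D ev n k al r z c s F G hn hk hal0 halk hcs hDr hDz hev hF0 hG0 hF hG hsF hsG
  set d : Derivation ℝ R R := (1 / 2 : ℝ) • D with hd
  obtain ⟨T, hT, hTc⟩ := h1 ℝ R ℂ d ((Algebra.ofId ℝ ℂ).comp ev)
  set h : R := algebraMap ℝ R (1 / 2) with hh
  have hh2 : h * 2 = 1 := by
    have e : (2 : R) = algebraMap ℝ R 2 := (map_ofNat _ 2).symm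
    rw [hh, e, ← map_mul]
    norm_num
  have hdD : ∀ a, d a = h * D a := by
    intro a
    rw [hd, Derivation.smul_apply, Algebra.smul_def]
  have hDh : ∀ a, D (h * a) = h * D a := by
    intro a
    rw [hh, ← Algebra.smul_def, Derivation.map_smul, Algebra.smul_def]
  have hdd : ∀ a, d (d a) = h * (h * D (D a)) := by
    intro a
    rw [hdD, hdD, hDh]
  have hTn : ∀ m : ℕ, T (m : R) = (m : PowerSeries ℂ) := fun m => map_natCast T m
  have hT1 : T 1 = 1 := map_one T
  have hT2 : T 2 = 2 := map_ofNat T 2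
  -- the equations for d
  have q1 : d r = c * r := by
    rw [hdD, hDr]; linear_combination (c * r) * hh2
  have q2 : d z = s * r := by
    rw [hdD, hDz]; linear_combination (s * r) * hh2
  have q3 : ∀ j, r ^ 2 * F (j + 1) =
      d (d (F j)) + ((n : R) - 2) * c * d (F j) - ((n : R) - 1) * F j := by
    intro j
    rw [hdd, hdD]
    linear_combination (h ^ 2) * hF j + ((2 * h + 1) * (-(r ^ 2 * F (j + 1))
      - ((n : R) - 1) * F j) + h * ((n : R) - 2) * c * D (F j)) * hh2
  have q4 : ∀ j, r ^ 2 * G (j + 1) = d (d (G j)) + ((n : R) - 2) * c * d (G j) := by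
    intro j
    rw [hdd, hdD]
    linear_combination (h ^ 2) * hG j + ((2 * h + 1) * (-(r ^ 2 * G (j + 1)))
      + h * ((n : R) - 2) * c * D (G j)) * hh2
  have hal : ∀ x : ℝ, T (algebraMap ℝ R x) = algebraMap ℂ (PowerSeries ℂ) (x : ℂ) := by
    intro x
    rw [T.commutes, IsScalarTower.algebraMap_apply ℝ ℂ (PowerSeries ℂ)]
    rfl
  have key := h2 (T c) (T s) (T r) (fun j => T (F j)) (fun j => T (G j)) n k
    (fun l => ((-al (k - l) : ℝ) : ℂ)) hn hk
    (by
      show ((-al (k - 0) : ℝ) : ℂ) ≠ 0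
      rw [Nat.sub_zero]
      exact_mod_cast neg_ne_zero.2 halk)
    (by
      rw [hTc]
      show ((ev r : ℝ) : ℂ) ≠ 0
      exact_mod_cast hev)
    (by show T (F 0) = T r; rw [hF0])
    (by rw [← hT, q1, map_mul])
    (by
      show PowerSeries.derivative ℂ (T (G 0)) = T s * T r
      rw [← hT, hG0, q2, map_mul])
    (by rw [← map_pow, ← map_pow, ← map_add, hcs, map_one])
    (by
      intro j
      show T r ^ 2 * T (F (j + 1)) = PowerSeries.derivative ℂ (PowerSeries.derivative ℂ (T (F j)))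
        + ((n : PowerSeries ℂ) - 2) * T c * PowerSeries.derivative ℂ (T (F j))
        - ((n : PowerSeries ℂ) - 1) * T (F j)
      rw [← hT, ← hT, ← map_pow, ← map_mul, q3 j, map_sub, map_add, map_mul, map_mul, map_mul,
        map_sub, map_sub, hTn, hT1, hT2])
    (by
      intro j
      show T r ^ 2 * T (G (j + 1)) = PowerSeries.derivative ℂ (PowerSeries.derivative ℂ (T (G j)))
        + ((n : PowerSeries ℂ) - 2) * T c * PowerSeries.derivative ℂ (T (G j))
      rw [← hT, ← hT, ← map_pow, ← map_mul, q4 j, map_add, map_mul, map_mul, map_sub, hTn, hT2])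
    (by
      show T (F k) = ∑ l ∈ range k, algebraMap ℂ (PowerSeries ℂ) ((-al (k - l) : ℝ) : ℂ) * T (F l)
      rw [ItemJT.reindex k al F hal0 hsF, map_sum]
      refine Finset.sum_congr rfl fun l _ => ?_
      rw [map_mul, hal])
    (by
      show T (G k) = ∑ l ∈ range k, algebraMap ℂ (PowerSeries ℂ) ((-al (k - l) : ℝ) : ℂ) * T (G l)
      rw [ItemJT.reindex k al G hal0 hsG, map_sum]
      refine Finset.sum_congr rfl fun l _ => ?_
      rw [map_mul, hal])
  have key2 : PowerSeries.derivative ℂ (T r ^ 2 + T (G 0) ^ 2) = 0 := key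
  rw [hG0, ← map_pow, ← map_pow, ← map_add, ← hT] at key2
  have key3 := hTc (d (r ^ 2 + z ^ 2))
  rw [key2, map_zero] at key3
  have key4 : ev (d (r ^ 2 + z ^ 2)) = 0 := by
    have : ((ev (d (r ^ 2 + z ^ 2)) : ℝ) : ℂ) = 0 := key3.symm
    exact_mod_cast this
  rw [hd, Derivation.smul_apply, map_smul, smul_eq_mul] at key4
  linarith

end Pool.Agent.Work.MP_157c12_gt.RA

end
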