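import Pool.Agent.Work.MP_157c12_gt.RA.Stmts

section

/-!
# Places with `1 < |u| = |f|`
-/

open Finset

namespace Pool.Agent.Work.MP_157c12_gt.RA

namespace ItemVC

variable {K : Type} [Field K] [Algebra ℂ K]

lemma dpow (D : Derivation ℂ K K) {u l : K} (hu : u ≠ 0) (hl : D u = u ^ 2 * l) (m : ℕ) (x : K) :
    D (u ^ m * x) = u ^ (m + 1) * (u⁻¹ * D x + m * l * x) := by
  have h1 : D (u ^ m) = u ^ (m + 1) * (m * l) := by
    induction m with
    | zero => simp
    | succ m ih =>
      rw [pow_succ, Derivation.leibniz, ih, hl, smul_eq_mul, smul_eq_mul]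
      push_cast
      ring
  rw [Derivation.leibniz, h1, smul_eq_mul, smul_eq_mul]
  field_simp
  ring

lemma core (D : Derivation ℂ K K) (n k : ℕ) (c : ℕ → ℂ) (u γ f G : K) (ρ σ ζ η : ℕ → K)
    (hP : Prof D n k c u γ f G ρ σ ζ η) (V : ValuationSubring K)
    (hV : ∀ z : ℂ, algebraMap ℂ K z ∈ V) (hu : u ∉ V) (huf : u / f ∈ V) (hfu : f / u ∈ V)
    (B : Subalgebra ℂ K) (hBV : ∀ b ∈ B, b ∈ V) (hBD : ∀ b ∈ B, u⁻¹ * D b ∈ B)
    (hBg : ∀ i, gen k 1 u γ (f ^ 2) ρ σ ζ η i / u ^ wgt k i ∈ B) (hl : D u / u ^ 2 ∈ B)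
    (z : ℂ) (hz : z ^ 2 = -1) (hb : u / (u - algebraMap ℂ K z * γ) ∈ V) :
    f ^ 2 + G ^ 2 ∈ V := by
  have hu0 : u ≠ 0 := by
    rintro rfl
    exact hu (zero_mem V)
  have hf0 : f ≠ 0 := hP.f0
  set J : K := algebraMap ℂ K z with hJ
  have hJ2 : J ^ 2 = -1 := by
    rw [hJ, ← map_pow, hz, map_neg, map_one]
  have hJB : J ∈ B := B.algebraMap_mem z
  have hDJ : D J = 0 := D.map_algebraMap z
  set b : K := u - J * γ with hbdef
  have hab : (u + J * γ) * b = 1 := by
    have := hP.sys.ab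
    rw [hbdef]
    linear_combination this - γ ^ 2 * hJ2
  have hb0 : b ≠ 0 := by
    intro h
    rw [h, mul_zero] at hab
    exact zero_ne_one hab
  set l : K := D u / u ^ 2 with hldef
  have hDu : D u = u ^ 2 * l := by
    rw [hldef]
    field_simp
  -- the variables
  have hγ : γ / u ∈ B := by
    have := hBg (Sum.inl 2)
    simpa [gen, wgt] using this
  have hρ : ∀ m < k, ρ (m + 1) / u ^ (2 * (m + 1)) ∈ B := by
    intro m hm
    have := hBg (Sum.inr (0, ⟨m, hm⟩))
    simpa [gen, wgt] using this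
  have hζ : ∀ m < k, ζ (m + 1) / u ^ (2 * (m + 1)) ∈ B := by
    intro m hm
    have := hBg (Sum.inr (2, ⟨m, hm⟩))
    simpa [gen, wgt] using this
  -- the enlarged ring
  set B' : Subalgebra ℂ K := Algebra.adjoin ℂ ((B : Set K) ∪ {u / b}) with hB'
  have hBB : ∀ x ∈ B, x ∈ B' := fun x hx => Algebra.subset_adjoin (Or.inl hx)
  have hubB : u / b ∈ B' := Algebra.subset_adjoin (Or.inr rfl)
  have hB'V : ∀ x ∈ B', x ∈ V := by
    intro x hx
    induction hx using Algebra.adjoin_induction with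
    | mem x hx =>
      rcases hx with hx | hx
      · exact hBV x hx
      · rw [Set.mem_singleton_iff] at hx
        rw [hx]
        exact hb
    | algebraMap r => exact hV r
    | add x y _ _ hx hy => exact V.add_mem _ _ hx hy
    | mul x y _ _ hx hy => exact V.mul_mem _ _ hx hy
  have hDγ : D γ / u ^ 2 ∈ B := by
    have h1 : D γ / u ^ 2 = u⁻¹ * D (γ / u) + (γ / u) * l := by
      have h2 : γ = u * (γ / u) := by field_simp
      have h3 : D γ = u * D (γ / u) + (γ / u) * D u := by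
        conv_lhs => rw [h2]
        rw [Derivation.leibniz, smul_eq_mul, smul_eq_mul]
      rw [h3, hDu]
      field_simp
    rw [h1]
    exact B.add_mem (hBD _ hγ) (B.mul_mem hγ hl)
  have hDb : D b / u ^ 2 ∈ B := by
    have h1 : D b / u ^ 2 = l - J * (D γ / u ^ 2) := by
      rw [hbdef, map_sub, Derivation.leibniz, hDJ, smul_zero, add_zero, smul_eq_mul, hldef]
      ring
    rw [h1]
    exact B.sub_mem hl (B.mul_mem hJB hDγ)
  have hB'D : ∀ x ∈ B', u⁻¹ * D x ∈ B' := by
    intro x hx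
    induction hx using Algebra.adjoin_induction with
    | mem x hx =>
      rcases hx with hx | hx
      · exact hBB _ (hBD x hx)
      · rw [Set.mem_singleton_iff] at hx
        rw [hx]
        have h1 : u⁻¹ * D (u / b) = l * (u / b) - (D b / u ^ 2) * (u / b) ^ 2 := by
          have h2 : u = b * (u / b) := by field_simp
          have h3 : D u = b * D (u / b) + (u / b) * D b := by
            conv_lhs => rw [h2]
            rw [Derivation.leibniz, smul_eq_mul, smul_eq_mul]
          have h4 : D (u / b) = (D u - (u / b) * D b) / b := by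
            rw [eq_div_iff hb0, h3]
            ring
          rw [h4, hDu]
          field_simp
        rw [h1]
        exact B'.sub_mem (B'.mul_mem (hBB _ hl) hubB)
          (B'.mul_mem (hBB _ hDb) (B'.pow_mem hubB 2))
    | algebraMap r =>
      rw [D.map_algebraMap, mul_zero]
      exact B'.zero_mem
    | add x y _ _ hx hy =>
      rw [map_add, mul_add]
      exact B'.add_mem hx hy
    | mul x y hx' hy' hx hy =>
      rw [Derivation.leibniz, smul_eq_mul, smul_eq_mul]
      have : u⁻¹ * (x * D y + y * D x) = x * (u⁻¹ * D y) + y * (u⁻¹ * D x) := by ring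
      rw [this]
      exact B'.add_mem (B'.mul_mem hx' hy) (B'.mul_mem hy' hx)
  -- the claim
  have hn : ∀ m : ℕ, (m : K) ∈ B' := fun m => B'.natCast_mem m
  have hlB : l ∈ B' := hBB _ hl
  have claim : ∀ m < k, (ρ (m + 1) + J * ζ (m + 1)) / u ^ (2 * m) ∈ B' := by
    intro m
    induction m with
    | zero =>
      intro hk
      have h1 := hP.sys.uv
      have h2 : ρ (0 + 1) + J * ζ (0 + 1) =
          -((u / b) ^ 2 * (ρ (0 + 1) / u ^ (2 * (0 + 1)) - J * (ζ (0 + 1) / u ^ (2 * (0 + 1))))) := by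
        have h3 : b ^ 2 * (ρ 1 + J * ζ 1) = -(ρ 1 - J * ζ 1) := by
          have h4 : b * (ρ 1 + J * ζ 1) = -((u + J * γ) * (ρ 1 - J * ζ 1)) := by
            rw [hbdef]
            linear_combination 2 * h1 - 2 * γ * ζ 1 * hJ2
          calc b ^ 2 * (ρ 1 + J * ζ 1) = b * (b * (ρ 1 + J * ζ 1)) := by ring
            _ = -(((u + J * γ) * b) * (ρ 1 - J * ζ 1)) := by rw [h4]; ring
            _ = -(ρ 1 - J * ζ 1) := by rw [hab, one_mul]
        have h5 : ρ 1 + J * ζ 1 = -(ρ 1 - J * ζ 1) / b ^ 2 := by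
          rw [eq_div_iff (pow_ne_zero 2 hb0), ← h3]
          ring
        simp only [zero_add, mul_one]
        rw [h5]
        field_simp
      rw [mul_zero, pow_zero, div_one, h2]
      exact B'.neg_mem (B'.mul_mem (B'.pow_mem hubB 2) (B'.sub_mem (hBB _ (hρ 0 hk))
        (B'.mul_mem (hBB _ hJB) (hBB _ (hζ 0 hk)))))
    | succ m ih =>
      intro hk
      have hx := ih (by omega)
      set x : K := (ρ (m + 1) + J * ζ (m + 1)) / u ^ (2 * m) with hxdef
      have ht : ρ (m + 1) + J * ζ (m + 1) = u ^ (2 * m) * x := by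
        rw [hxdef]
        field_simp
      clear_value x
      set y : K := u⁻¹ * D x + (2 * m : ℕ) * l * x - (2 * m + 1) * x with hydef
      have hy : y ∈ B' := by
        refine B'.sub_mem (B'.add_mem (hB'D x hx) (B'.mul_mem (B'.mul_mem (hn _) hlB) hx)) ?_
        have : (2 * m + 1 : K) * x = ((2 * m + 1 : ℕ) : K) * x := by push_cast; ring
        rw [this]
        exact B'.mul_mem (hn _) hx
      have hs : σ (m + 1) + J * η (m + 1) = u ^ (2 * m + 1) * y := by
        have h1 := hP.sys.dρ (m + 1) (by omega) (by omega)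
        have h2 := hP.sys.dζ (m + 1) (by omega) (by omega)
        have h3 : D (ρ (m + 1) + J * ζ (m + 1)) = D (ρ (m + 1)) + J * D (ζ (m + 1)) := by
          rw [map_add, Derivation.leibniz, hDJ, smul_zero, add_zero, smul_eq_mul]
        rw [ht, dpow D hu0 hDu] at h3
        rw [h1, h2] at h3
        rw [hydef]
        push_cast at h3 ⊢
        linear_combination (-(1 : K)) * h3 - (2 * m + 1) * u * ht
      clear_value y
      have h1 := hP.sys.dσ (m + 1) (by omega) (by omega)
      have h2 := hP.sys.dη (m + 1) (by omega) (by omega)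
      have h3 : D (σ (m + 1) + J * η (m + 1)) = D (σ (m + 1)) + J * D (η (m + 1)) := by
        rw [map_add, Derivation.leibniz, hDJ, smul_zero, add_zero, smul_eq_mul]
      rw [hs, dpow D hu0 hDu] at h3
      rw [h1, h2] at h3
      have h4 : (ρ (m + 1 + 1) + J * ζ (m + 1 + 1)) / u ^ (2 * (m + 1)) =
          (u⁻¹ * D y + ((2 * m + 1 : ℕ) : K) * l * y - ((2 * m + 3 : ℕ) : K) * y + (n : K) * y) -
            ((n : K) - ((1 : ℕ) : K)) * (ρ (m + 1) / u ^ (2 * (m + 1))) := by
        rw [eq_comm]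
        have h5 : ρ (m + 1) = u ^ (2 * (m + 1)) * (ρ (m + 1) / u ^ (2 * (m + 1))) := by
          field_simp
        rw [eq_div_iff (pow_ne_zero _ hu0)]
        push_cast at h3 ⊢
        have h6 : ρ (m + 1) / u ^ (2 * (m + 1)) * u ^ (2 * (m + 1)) = ρ (m + 1) := by
          field_simp
        have e1 : u ^ (2 * (m + 1)) = u ^ (2 * m + 1 + 1) := by ring
        linear_combination h3 - ((n : K) - 1) * h6 + (2 * ((m : K) + 1) + 1 - n) * u * hs +
          0 * e1
      rw [h4]
      refine B'.sub_mem (B'.add_mem (B'.sub_mem (B'.add_mem (hB'D y hy)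
        (B'.mul_mem (B'.mul_mem (hn _) hlB) hy)) (B'.mul_mem (hn _) hy)) (B'.mul_mem (hn _) hy))
        (B'.mul_mem (B'.sub_mem (hn _) (hn _)) (hBB _ (hρ m (by omega))))
  -- the element `t 0`
  set t0 : K := 1 + J * ζ 0 with ht0
  obtain ⟨k', rfl⟩ : ∃ k', k = k' + 1 := ⟨k - 1, by have := hP.k1; omega⟩
  have hsum : ρ (k' + 1) + J * ζ (k' + 1) = ∑ l ∈ range (k' + 1),
      algebraMap ℂ K (c l) * (f ^ 2) ^ (k' + 1 - l) * (ρ l + J * ζ l) := by
    rw [hP.sys.rρ, hP.rζ, Finset.mul_sum, ← Finset.sum_add_distrib]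
    refine Finset.sum_congr rfl fun l _ => ?_
    ring
  rw [Finset.sum_range_succ', hP.sys.r0, ← ht0, Nat.sub_zero] at hsum
  have hc0 : algebraMap ℂ K (c 0) ≠ 0 := by
    rw [Ne, FaithfulSMul.algebraMap_eq_zero_iff]
    exact hP.c0
  have hterm : ∀ l ≤ k', u ^ 2 * (ρ (l + 1) + J * ζ (l + 1)) / (f ^ 2) ^ (l + 1) =
      ((ρ (l + 1) + J * ζ (l + 1)) / u ^ (2 * l)) * (u / f) ^ (2 * (l + 1)) := by
    intro l _
    have e1 : (u / f) ^ (2 * (l + 1)) = u ^ (2 * l) * u ^ 2 / (f ^ 2) ^ (l + 1) := by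
      rw [div_pow, ← pow_add, ← pow_mul]
      ring_nf
    rw [e1]
    field_simp
  have hmain : algebraMap ℂ K (c 0) * (u ^ 2 * t0) =
      ((ρ (k' + 1) + J * ζ (k' + 1)) / u ^ (2 * k')) * (u / f) ^ (2 * (k' + 1)) -
      ∑ l ∈ range k', algebraMap ℂ K (c (l + 1)) *
        (((ρ (l + 1) + J * ζ (l + 1)) / u ^ (2 * l)) * (u / f) ^ (2 * (l + 1))) := by
    rw [← hterm k' le_rfl]
    have h1 : ∀ l ∈ range k', algebraMap ℂ K (c (l + 1)) *
        (((ρ (l + 1) + J * ζ (l + 1)) / u ^ (2 * l)) * (u / f) ^ (2 * (l + 1))) =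
        (u ^ 2 / (f ^ 2) ^ (k' + 1)) * (algebraMap ℂ K (c (l + 1)) *
          (f ^ 2) ^ (k' + 1 - (l + 1)) * (ρ (l + 1) + J * ζ (l + 1))) := by
      intro l hl
      rw [mem_range] at hl
      rw [← hterm l hl.le]
      have e2 : (f ^ 2) ^ (k' + 1) = (f ^ 2) ^ (k' + 1 - (l + 1)) * (f ^ 2) ^ (l + 1) := by
        rw [← pow_add]
        congr 1
        omega
      rw [e2]
      field_simp
    rw [Finset.sum_congr rfl h1, ← Finset.mul_sum]
    have hfk : (f ^ 2) ^ (k' + 1) ≠ 0 := pow_ne_zero _ (pow_ne_zero _ hf0)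
    have h2 : algebraMap ℂ K (c 0) * t0 * (f ^ 2) ^ (k' + 1) =
        (ρ (k' + 1) + J * ζ (k' + 1)) - ∑ l ∈ range k', algebraMap ℂ K (c (l + 1)) *
          (f ^ 2) ^ (k' + 1 - (l + 1)) * (ρ (l + 1) + J * ζ (l + 1)) := by
      rw [hsum]
      ring
    rw [mul_div_assoc, mul_comm (u ^ 2), ← sub_eq_zero]
    have h3 : algebraMap ℂ K (c 0) * (u ^ 2 * t0) =
        (u ^ 2 / (f ^ 2) ^ (k' + 1)) * (algebraMap ℂ K (c 0) * t0 * (f ^ 2) ^ (k' + 1)) := by
      field_simp
    rw [show algebraMap ℂ K (c 0) * (t0 * u ^ 2) = algebraMap ℂ K (c 0) * (u ^ 2 * t0) by ring,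
      h3, h2]
    ring
  have hVt : u ^ 2 * t0 ∈ V := by
    have h1 : u ^ 2 * t0 = algebraMap ℂ K (c 0)⁻¹ * (algebraMap ℂ K (c 0) * (u ^ 2 * t0)) := by
      rw [← mul_assoc, ← map_mul, inv_mul_cancel₀ hP.c0, map_one, one_mul]
    rw [h1]
    refine V.mul_mem _ _ (hV _) ?_
    rw [hmain]
    refine V.sub_mem (V.mul_mem _ _ (hB'V _ (claim k' (by omega))) (pow_mem huf _)) ?_
    refine sum_mem fun l hl => ?_
    rw [mem_range] at hl
    exact V.mul_mem _ _ (hV _) (V.mul_mem _ _ (hB'V _ (claim l (by omega))) (pow_mem huf _))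
  have huinv : u⁻¹ ∈ V := (V.mem_or_inv_mem u).resolve_left hu
  have hVt0 : t0 ∈ V := by
    have h1 : t0 = u⁻¹ ^ 2 * (u ^ 2 * t0) := by
      field_simp
    rw [h1]
    exact V.mul_mem _ _ (pow_mem huinv 2) hVt
  have hfin : f ^ 2 + G ^ 2 = (f / u) ^ 2 * (u ^ 2 * t0) * (2 - t0) := by
    have h1 := hP.zG
    rw [← h1, ht0]
    field_simp
    linear_combination (ζ 0 ^ 2) * hJ2
  rw [hfin]
  refine V.mul_mem _ _ (V.mul_mem _ _ (pow_mem hfu 2) hVt) (V.sub_mem ?_ hVt0)
  have : (2 : K) = algebraMap ℂ K 2 := (map_ofNat (algebraMap ℂ K) 2).symm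
  rw [this]
  exact hV 2

end ItemVC

theorem vC (h : VE) : VC := by
  intro K _ _ D n k c u γ f G ρ σ ζ η hP V hV hu huf
  obtain ⟨hfu, B, hBV, hBD, -, -, -, hBg, hl⟩ := h K D n k c u γ f G ρ σ ζ η hP V hV hu
  have hu0 : u ≠ 0 := by
    rintro rfl
    exact hu (zero_mem V)
  by_cases hb : u / (u - algebraMap ℂ K Complex.I * γ) ∈ V
  · exact ItemVC.core D n k c u γ f G ρ σ ζ η hP V hV hu huf hfu B hBV hBD hBg hl Complex.I
      Complex.I_sq hb
  · refine ItemVC.core D n k c u γ f G ρ σ ζ η hP V hV hu huf hfu B hBV hBD hBg hl (-Complex.I)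
      (by simp) ?_
    set J := algebraMap ℂ K Complex.I with hJ
    have hb' : (u - J * γ) / u ∈ V := by
      have := (V.mem_or_inv_mem (u / (u - J * γ))).resolve_left hb
      rwa [inv_div] at this
    have hnu : (u - J * γ) / u ∈ V.nonunits := by
      by_contra h1
      have h2 := ValuationSubring.mem_nonunits_iff_exists_mem_maximalIdeal (A := V)
        (a := (u - J * γ) / u)
      apply hb
      rw [← inv_div]
      by_contra h3
      apply h1
      rw [ValuationSubring.mem_nonunits_iff, ]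
      have h4 : V.valuation ((u - J * γ) / u) ≤ 1 := (V.valuation_le_one_iff _).2 hb'
      refine lt_of_le_of_ne h4 fun h5 => h3 ?_
      rw [← V.valuation_le_one_iff, map_inv₀, h5, inv_one]
    rw [map_neg, ← hJ]
    have e1 : u / (u - -J * γ) = ((u - -J * γ) / u)⁻¹ := by rw [inv_div]
    have e2 : (u - -J * γ) / u = 2 - (u - J * γ) / u := by
      field_simp
      ring
    rw [e1, e2, ← V.valuation_le_one_iff, map_inv₀]
    rw [ValuationSubring.mem_nonunits_iff] at hnu
    have h2 : V.valuation (2 : K) = 1 := by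
      have h3 : V.valuation (2 : K) ≤ 1 := (V.valuation_le_one_iff _).2 (by
        have : (2 : K) = algebraMap ℂ K 2 := (map_ofNat (algebraMap ℂ K) 2).symm
        rw [this]
        exact hV 2)
      have h4 : V.valuation (2 : K)⁻¹ ≤ 1 := (V.valuation_le_one_iff _).2 (by
        have : (2 : K)⁻¹ = algebraMap ℂ K 2⁻¹ := by rw [map_inv₀, map_ofNat]
        rw [this]
        exact hV _)
      have h5 : V.valuation (2 : K) * V.valuation (2 : K)⁻¹ = 1 := by
        rw [← map_mul, mul_inv_cancel₀, map_one]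
        have : (2 : K) = algebraMap ℂ K 2 := (map_ofNat (algebraMap ℂ K) 2).symm
        rw [this, Ne, FaithfulSMul.algebraMap_eq_zero_iff]
        norm_num
      refine le_antisymm h3 ?_
      calc (1 : V.ValueGroup) = V.valuation (2 : K) * V.valuation (2 : K)⁻¹ := h5.symm
        _ ≤ V.valuation (2 : K) * 1 := by gcongr
        _ = V.valuation (2 : K) := mul_one _
    have h6 : V.valuation (2 - (u - J * γ) / u) = 1 := by
      rw [← h2]
      apply Valuation.map_sub_eq_of_lt_left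
      rw [h2]
      exact hnu
    rw [h6, inv_one]

end Pool.Agent.Work.MP_157c12_gt.RA

end

section

/-!
# Rotational hypersurfaces of finite type: item VD1, the exponent at a place with `|f| < |u|`
-/

open Finset

namespace Pool.Agent.Work.MP_157c12_gt.RA

namespace ItemVD1

variable {K : Type} [Field K] [Algebra ℂ K]

/-- nonzero complex numbers have the valuation `1` -/
theorem val_c (V : ValuationSubring K) (hC : ∀ z : ℂ, algebraMap ℂ K z ∈ V) (z : ℂ)
    (hz : z ≠ 0) : V.valuation (algebraMap ℂ K z) = 1 := by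
  have h1 := (V.valuation_le_one_iff _).2 (hC z)
  have h2 := (V.valuation_le_one_iff _).2 (hC z⁻¹)
  have h3 : V.valuation (algebraMap ℂ K z) * V.valuation (algebraMap ℂ K z⁻¹) = 1 := by
    rw [← map_mul, ← map_mul, mul_inv_cancel₀ hz, map_one, map_one]
  refine le_antisymm h1 ?_
  rw [← h3]
  calc V.valuation (algebraMap ℂ K z) * V.valuation (algebraMap ℂ K z⁻¹)
      ≤ V.valuation (algebraMap ℂ K z) * 1 := by gcongr
    _ = _ := mul_one _

theorem val_c_le (V : ValuationSubring K) (hC : ∀ z : ℂ, algebraMap ℂ K z ∈ V) (z : ℂ) :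
    V.valuation (algebraMap ℂ K z) ≤ 1 := (V.valuation_le_one_iff _).2 (hC z)

omit [Algebra ℂ K] in
theorem val_nat_le (V : ValuationSubring K) (m : ℕ) : V.valuation (m : K) ≤ 1 :=
  (V.valuation_le_one_iff _).2 (natCast_mem V.toSubring m)

omit [Algebra ℂ K] in
/-- transfer of the valuation `1` -/
theorem val_one (V : ValuationSubring K) {a b : K} (h : V.valuation (a - b) < 1)
    (hb : V.valuation b = 1) : V.valuation a = 1 := by
  rw [← hb] at h
  rw [V.valuation.map_eq_of_sub_lt h, hb]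

theorem dr (D : Derivation ℂ K K) (u a s : K) (m : ℕ) (hu : u ≠ 0)
    (h : D a = (m : K) * u * a + s) (w : ℕ) :
    u⁻¹ * D (a / u ^ w) = s / u ^ (w + 1) - ((w : K) * (D u / u ^ 2) - m) * (a / u ^ w) := by
  have h1 : D (u ^ w * (a / u ^ w)) = D a := by
    congr 1
    field_simp
  rw [D.leibniz, Derivation.leibniz_pow, h] at h1
  simp only [smul_eq_mul, nsmul_eq_mul] at h1
  have h2 : u ^ w * D (a / u ^ w) = m * u * a + s - a / u ^ w * (w * (u ^ (w - 1) * D u)) := by
    rw [← h1]; ring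
  have h3 : (w : K) * (u ^ (w - 1) * D u) * u = w * u ^ w * D u := by
    rcases Nat.eq_zero_or_pos w with hw | hw
    · subst hw; simp
    · obtain ⟨v, rfl⟩ : ∃ v, w = v + 1 := ⟨w - 1, by omega⟩
      simp only [Nat.add_sub_cancel, pow_succ]; ring
  have h4 : u⁻¹ * D (a / u ^ w) = (u ^ w * D (a / u ^ w)) / u ^ (w + 1) := by
    rw [pow_succ]
    field_simp
  rw [h4, h2]
  have h5 : (w : K) * (u ^ (w - 1) * D u) = w * u ^ w * D u / u := by
    rw [← h3]; field_simp
  rw [h5]
  field_simp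
  ring

end ItemVD1

open ItemVD1 in
theorem vD1 (h1 : VE) (h2 : VCon) (h3 : VRed) (h4 : VTr) : VD1 := by
  intro K _ _ D n k c u γ f G ρ σ ζ η hP V hC huV hfu
  obtain ⟨hfV, B, hBV, hBD, hBA, huB, hfB, hgB, hlB⟩ :=
    h1 K D n k c u γ f G ρ σ ζ η hP V hC huV
  obtain ⟨hut, hft, hAf, hAG, hAg⟩ := h4 K D n k c u γ f G ρ σ ζ η hP
  have hu0 : u ≠ 0 := fun h => huV (h ▸ V.zero_mem)
  have hc0K : CharZero K := charZero_of_injective_algebraMap (algebraMap ℂ K).injective
  have huin : u⁻¹ ∈ V.nonunits := (ValuationSubring.inv_mem_nonunits_iff (A := V)).2 (Or.inr huV)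
  set l : K := D u / u ^ 2 with hl
  -- the derivation
  have hδe : (u⁻¹ • D) u⁻¹ = (-l) * u⁻¹ := by
    have h5 : D (u * u⁻¹) = 0 := by rw [mul_inv_cancel₀ hu0]; exact D.map_one_eq_zero
    rw [D.leibniz] at h5
    simp only [smul_eq_mul] at h5
    have h6 : D u⁻¹ = - (u⁻¹ * D u) / u := by
      field_simp
      field_simp at h5
      linear_combination h5
    show u⁻¹ • D u⁻¹ = _
    rw [smul_eq_mul, h6, hl]
    field_simp
  have hui : Transcendental ℂ u⁻¹ := by
    intro h5
    exact hut (by simpa using h5.inv)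
  have hAu : Alg1 u u⁻¹ := hBA _ huB
  have key : ∀ x ∈ B, V.valuation (u⁻¹ * D x) < 1 := by
    intro x hx
    have := h2 K V hC B (u⁻¹ • D) hBV hBD u⁻¹ huB huin (-l) (B.neg_mem hlB) hδe x hx
      (h3 K u u⁻¹ x hAu (hBA x hx) hui)
    exact (ValuationSubring.mem_nonunits_iff (A := V)).1 this
  -- the elements
  have hρB : ∀ j, 1 ≤ j → j ≤ k → ρ j / u ^ (2 * j) ∈ B := by
    intro j hj hjk
    have := hgB (Sum.inr (0, ⟨j - 1, by omega⟩))
    simp only [gen, wgt, Sum.elim_inr, Matrix.cons_val_zero] at this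
    rwa [show j - 1 + 1 = j by omega] at this
  have hσB : ∀ j, 1 ≤ j → j ≤ k → σ j / u ^ (2 * j + 1) ∈ B := by
    intro j hj hjk
    have := hgB (Sum.inr (1, ⟨j - 1, by omega⟩))
    simp only [gen, wgt, Sum.elim_inr, Matrix.cons_val_one, Matrix.cons_val_zero] at this
    rwa [show j - 1 + 1 = j by omega] at this
  have hlV : V.valuation l ≤ 1 := (V.valuation_le_one_iff _).2 (hBV _ hlB)
  -- negation
  by_contra hcon
  push Not at hcon
  have hone : ∀ p q : ℕ, 0 < p → 0 < q → V.valuation ((q : K) * (1 - l) - p) = 1 := by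
    intro p q hp hq
    have h5 := hcon p q hp hq
    rw [ValuationSubring.mem_nonunits_iff] at h5
    refine le_antisymm ?_ (not_lt.1 h5)
    rw [V.valuation_le_one_iff]
    have hlV' : l ∈ V := hBV _ hlB
    exact sub_mem (mul_mem (natCast_mem V.toSubring q) (sub_mem V.one_mem hlV'))
      (natCast_mem V.toSubring p)
  have hk := hP.k1
  have hn := hP.n2
  -- the first value
  have hr1 : V.valuation (ρ 1 / u ^ (2 * 1)) = 1 := by
    have h5 := hone n 1 (by omega) one_pos
    refine val_one V (b := -(((1 : ℕ) : K) * (1 - l) - n)) ?_ (by rw [Valuation.map_neg]; exact h5)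
    have h6 := hP.sys.du
    have h7 : ρ 1 / u ^ (2 * 1) - -(((1 : ℕ) : K) * (1 - l) - n) =
        -(((n : K) - 1) * (u⁻¹ * u⁻¹)) := by
      rw [hl, h6]
      field_simp
      push_cast
      ring
    rw [h7, Valuation.map_neg, map_mul, map_mul]
    have h8 : V.valuation ((n : K) - 1) ≤ 1 :=
      (V.valuation_le_one_iff _).2 (sub_mem (natCast_mem V.toSubring n) V.one_mem)
    have h9 := (ValuationSubring.mem_nonunits_iff (A := V)).1 huin
    calc V.valuation ((n : K) - 1) * (V.valuation u⁻¹ * V.valuation u⁻¹)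
        ≤ 1 * (V.valuation u⁻¹ * 1) := by gcongr
      _ < 1 := by simpa using h9
  -- the steps
  have hrs : ∀ j, 1 ≤ j → j ≤ k → V.valuation (ρ j / u ^ (2 * j)) = 1 →
      V.valuation (σ j / u ^ (2 * j + 1)) = 1 := by
    intro j hj hjk h5
    have h6 := key _ (hρB j hj hjk)
    have h7 := dr D u (ρ j) (σ j) (2 * j - 1) hu0 (by
      rw [hP.sys.dρ j hj hjk]
      have : ((2 * j - 1 : ℕ) : K) = 2 * (j : K) - 1 := by
        rw [Nat.cast_sub (by omega)]; push_cast; ring
      rw [this]) (2 * j)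
    rw [h7] at h6
    refine val_one V h6 ?_
    rw [map_mul, h5, mul_one]
    have h8 := hone 1 (2 * j) one_pos (by omega)
    rw [← Valuation.map_neg]
    convert h8 using 2
    rw [Nat.cast_sub (by omega)]
    push_cast
    ring
  have hsr : ∀ j, 1 ≤ j → j + 1 ≤ k → V.valuation (σ j / u ^ (2 * j + 1)) = 1 →
      V.valuation (ρ (j + 1) / u ^ (2 * (j + 1))) = 1 := by
    intro j hj hjk h5
    have h6 := key _ (hσB j hj (by omega))
    have h7 : u⁻¹ * D (σ j / u ^ (2 * j + 1)) = (ρ (j + 1) / u ^ (2 * (j + 1))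
        - (n - ((2 * j + 1 : ℕ) : K) * (1 - l)) * (σ j / u ^ (2 * j + 1)))
        + ((n : K) - 1) * ((u⁻¹ * u⁻¹) * (ρ j / u ^ (2 * j))) := by
      have h8 := dr D u (σ j) (((n : K) - 1) * 1 * ρ j + ρ (j + 1) - n * u * σ j) (2 * j + 1) hu0 (by
        rw [hP.sys.dσ j hj (by omega)]
        push_cast
        ring) (2 * j + 1)
      rw [h8, ← hl]
      field_simp
      push_cast
      ring
    have h9 : V.valuation (((n : K) - 1) * ((u⁻¹ * u⁻¹) * (ρ j / u ^ (2 * j)))) < 1 := by
      have h10 : V.valuation ((n : K) - 1) ≤ 1 :=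
        (V.valuation_le_one_iff _).2 (sub_mem (natCast_mem V.toSubring n) V.one_mem)
      have h11 := (ValuationSubring.mem_nonunits_iff (A := V)).1 huin
      have h12 := (V.valuation_le_one_iff _).2 (hBV _ (hρB j hj (by omega)))
      rw [map_mul, map_mul, map_mul]
      calc V.valuation ((n : K) - 1) * (V.valuation u⁻¹ * V.valuation u⁻¹ *
            V.valuation (ρ j / u ^ (2 * j)))
          ≤ 1 * (V.valuation u⁻¹ * 1 * 1) := by gcongr
        _ < 1 := by simpa using h11
    have h13 : V.valuation (ρ (j + 1) / u ^ (2 * (j + 1))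
        - (n - ((2 * j + 1 : ℕ) : K) * (1 - l)) * (σ j / u ^ (2 * j + 1))) < 1 := by
      have : ρ (j + 1) / u ^ (2 * (j + 1))
        - (n - ((2 * j + 1 : ℕ) : K) * (1 - l)) * (σ j / u ^ (2 * j + 1)) =
        u⁻¹ * D (σ j / u ^ (2 * j + 1)) -
          ((n : K) - 1) * ((u⁻¹ * u⁻¹) * (ρ j / u ^ (2 * j))) := by
        rw [h7]; ring
      rw [this]
      exact (V.valuation.map_sub _ _).trans_lt (max_lt h6 h9)
    refine val_one V h13 ?_
    rw [map_mul, h5, mul_one]
    have h8 := hone n (2 * j + 1) (by omega) (by omega)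
    rw [← Valuation.map_neg]
    convert h8 using 2
    ring
  have hall : ∀ j, 1 ≤ j → j ≤ k → V.valuation (ρ j / u ^ (2 * j)) = 1 := by
    intro j hj
    induction j, hj using Nat.le_induction with
    | base => intro _; exact hr1
    | succ j hj ih =>
      intro hjk
      exact hsr j hj hjk (hrs j hj (by omega) (ih (by omega)))
  -- the contradiction
  have hrk : V.valuation (ρ k / u ^ (2 * k)) < 1 := by
    have h5 : ρ k / u ^ (2 * k) = ∑ l ∈ range k, algebraMap ℂ K (c l) * ((f / u) ^ 2) ^ (k - l) *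
        (ρ l / u ^ (2 * l)) := by
      rw [hP.sys.rρ, Finset.sum_div]
      refine Finset.sum_congr rfl fun i hi => ?_
      have hik : i < k := Finset.mem_range.1 hi
      have h6 : u ^ (2 * k) = (u ^ 2) ^ (k - i) * u ^ (2 * i) := by
        rw [← pow_mul, ← pow_add]
        congr 1
        omega
      rw [h6, div_pow, div_pow, mul_div_mul_comm, mul_div_assoc]
    rw [h5]
    refine V.valuation.map_sum_lt one_ne_zero fun i hi => ?_
    have hik : i < k := Finset.mem_range.1 hi
    rw [map_mul, map_mul, map_pow, map_pow]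
    have h6 := (ValuationSubring.mem_nonunits_iff (A := V)).1 hfu
    have h7 : V.valuation (ρ i / u ^ (2 * i)) ≤ 1 := by
      rcases Nat.eq_zero_or_pos i with h | h
      · subst h
        rw [hP.sys.r0]
        simp
      · exact (V.valuation_le_one_iff _).2 (hBV _ (hρB i h hik.le))
    have h8 : (V.valuation (f / u) ^ 2) ^ (k - i) < 1 := by
      rw [← pow_mul]
      exact pow_lt_one₀ zero_le h6 (by
        have : 0 < k - i := by omega
        positivity)
    calc V.valuation (algebraMap ℂ K (c i)) * (V.valuation (f / u) ^ 2) ^ (k - i) *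
          V.valuation (ρ i / u ^ (2 * i))
        ≤ 1 * (V.valuation (f / u) ^ 2) ^ (k - i) * 1 := by
          gcongr
          exact val_c_le V hC _
      _ < 1 := by simpa using h8
  exact absurd (hall k hk le_rfl) hrk.ne

end Pool.Agent.Work.MP_157c12_gt.RA

end

section

/-!
# Rotational hypersurfaces of finite type: item VD2, the radius is small at a place with
`|f| < |u|`, `1 < |u|`
-/

open Finset

namespace Pool.Agent.Work.MP_157c12_gt.RA

namespace ItemVD2

variable {K : Type} [Field K] [Algebra ℂ K]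

/-- nonzero complex numbers have the valuation `1` -/
theorem val_c (V : ValuationSubring K) (hC : ∀ z : ℂ, algebraMap ℂ K z ∈ V) (z : ℂ)
    (hz : z ≠ 0) : V.valuation (algebraMap ℂ K z) = 1 := by
  have h1 := (V.valuation_le_one_iff _).2 (hC z)
  have h2 := (V.valuation_le_one_iff _).2 (hC z⁻¹)
  have h3 : V.valuation (algebraMap ℂ K z) * V.valuation (algebraMap ℂ K z⁻¹) = 1 := by
    rw [← map_mul, ← map_mul, mul_inv_cancel₀ hz, map_one, map_one]
  refine le_antisymm h1 ?_
  rw [← h3]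
  calc V.valuation (algebraMap ℂ K z) * V.valuation (algebraMap ℂ K z⁻¹)
      ≤ V.valuation (algebraMap ℂ K z) * 1 := by gcongr
    _ = _ := mul_one _

/-- nonunits are transcendental -/
theorem trans (V : ValuationSubring K) (hC : ∀ z : ℂ, algebraMap ℂ K z ∈ V) (e : K)
    (he : e ≠ 0) (hm : e ∈ V.nonunits) : Transcendental ℂ e := by
  intro h
  have h1 : IsIntegral ℂ e := h.isIntegral
  have h2 : e ∈ (algebraMap ℂ K).range := by
    refine minpoly.mem_range_of_degree_eq_one ℂ e ?_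
    exact IsAlgClosed.degree_eq_one_of_irreducible ℂ (minpoly.irreducible h1)
  obtain ⟨z, hz⟩ := h2
  have hz0 : z ≠ 0 := by
    rintro rfl
    exact he (by rw [← hz, map_zero])
  have h3 := (ValuationSubring.mem_nonunits_iff (A := V)).1 hm
  rw [← hz, val_c V hC z hz0] at h3
  exact absurd h3 (lt_irrefl _)

/-- a valuation ring as a subalgebra -/
def sub (V : ValuationSubring K) (hC : ∀ z : ℂ, algebraMap ℂ K z ∈ V) : Subalgebra ℂ K :=
  { V.toSubring with algebraMap_mem' := hC }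

/-- the derivative of a product of powers -/
theorem dE (δ : Derivation ℂ K K) (e u x y : K) (he : δ e = x * e) (hu : δ u = y * u)
    (a b : ℕ) : δ (e ^ a * u ^ b) = (a * x + b * y) * (e ^ a * u ^ b) := by
  have h1 : ∀ (z w : K) (hz : δ z = w * z) (m : ℕ), δ (z ^ m) = m * w * z ^ m := by
    intro z w hz m
    rw [Derivation.leibniz_pow, hz]
    rcases Nat.eq_zero_or_pos m with h | h
    · subst h; simp
    · obtain ⟨v, rfl⟩ : ∃ v, m = v + 1 := ⟨m - 1, by omega⟩
      simp only [Nat.add_sub_cancel, smul_eq_mul, nsmul_eq_mul, pow_succ]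
      ring
  rw [δ.leibniz, h1 e x he, h1 u y hu, smul_eq_mul, smul_eq_mul]
  ring

/-- adjoining an element with a logarithmic derivative in the ring -/
theorem adj (δ : Derivation ℂ K K) (B : Subalgebra ℂ K) (hB : ∀ b ∈ B, δ b ∈ B) (E y : K)
    (hy : y ∈ B) (hE : δ E = y * E) :
    ∀ b ∈ Algebra.adjoin ℂ ((B : Set K) ∪ {E}), δ b ∈ Algebra.adjoin ℂ ((B : Set K) ∪ {E}) := by
  intro b hb
  have hBle : ∀ x ∈ B, x ∈ Algebra.adjoin ℂ ((B : Set K) ∪ {E}) := fun x hx =>
    Algebra.subset_adjoin (Or.inl hx)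
  induction hb using Algebra.adjoin_induction with
  | mem x hx =>
    rcases hx with hx | hx
    · exact hBle _ (hB x hx)
    · rw [Set.mem_singleton_iff.1 hx, hE]
      exact Subalgebra.mul_mem _ (hBle _ hy) (Algebra.subset_adjoin (Or.inr rfl))
  | algebraMap r => rw [δ.map_algebraMap]; exact Subalgebra.zero_mem _
  | add x y hx hy h1 h2 => rw [map_add]; exact Subalgebra.add_mem _ h1 h2
  | mul x y hx hy h1 h2 =>
    rw [δ.leibniz]
    exact Subalgebra.add_mem _ (Subalgebra.mul_mem _ hx h2) (Subalgebra.mul_mem _ hy h1)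

end ItemVD2

open ItemVD2 in
theorem vD2 (h1 : VE) (h2 : VCon) (h3 : VRed) (h4 : VTr) (h5 : VUnit) (h6 : VD1) : VD2 := by
  intro K _ _ D n k c u γ f G ρ σ ζ η hP V hC huV hfu
  obtain ⟨hfV, B, hBV, hBD, hBA, huB, hfB, hgB, hlB⟩ :=
    h1 K D n k c u γ f G ρ σ ζ η hP V hC huV
  obtain ⟨hut, hft, hAf, hAG, hAg⟩ := h4 K D n k c u γ f G ρ σ ζ η hP
  have hu0 : u ≠ 0 := fun h => huV (h ▸ V.zero_mem)
  have hf0 := hP.f0
  have huin : u⁻¹ ∈ V.nonunits := (ValuationSubring.inv_mem_nonunits_iff (A := V)).2 (Or.inr huV)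
  have huin' := (ValuationSubring.mem_nonunits_iff (A := V)).1 huin
  obtain ⟨p, q, hp, hq, hpq⟩ := h6 K D n k c u γ f G ρ σ ζ η hP V hC huV hfu
  set l : K := D u / u ^ 2 with hl
  have he0 : f / u ≠ 0 := div_ne_zero hf0 hu0
  -- the derivatives
  have hδu : (u⁻¹ • D) u = l * u := by
    show u⁻¹ • D u = _
    rw [smul_eq_mul, hl]; field_simp
  have hδi : (u⁻¹ • D) u⁻¹ = (-l) * u⁻¹ := by
    have h5 : (u⁻¹ • D) (u * u⁻¹) = 0 := by
      rw [mul_inv_cancel₀ hu0]; exact (u⁻¹ • D).map_one_eq_zero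
    rw [(u⁻¹ • D).leibniz, hδu] at h5
    simp only [smul_eq_mul] at h5 ⊢
    field_simp at h5
    field_simp
    linear_combination h5
  have hδf : (u⁻¹ • D) f = f := by
    show u⁻¹ • D f = _
    rw [smul_eq_mul, hP.df]; field_simp
  have hδe : (u⁻¹ • D) (f / u) = (1 - l) * (f / u) := by
    rw [div_eq_mul_inv, (u⁻¹ • D).leibniz, hδf, hδi]
    simp only [smul_eq_mul]
    ring
  -- the unit
  have hAuu : Alg1 u u := isAlgebraic_algebraMap
    (⟨u, IntermediateField.subset_adjoin ℂ _ rfl⟩ : IntermediateField.adjoin ℂ ({u} : Set K))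
  have hAe : Alg1 u (f / u) := hBA _ hfB
  have het := trans V hC (f / u) he0 hfu
  obtain ⟨a, b, ha, hb, hE1, hE2⟩ := h5 K V hC (f / u) u he0 hfu huV
    (h3 K u (f / u) u hAe hAuu het)
  set E : K := (f / u) ^ a * u ^ b with hE
  have hE0 : E ≠ 0 := mul_ne_zero (pow_ne_zero _ he0) (pow_ne_zero _ hu0)
  have hδE : (u⁻¹ • D) E = (a * (1 - l) + b * l) * E :=
    dE (u⁻¹ • D) (f / u) u (1 - l) l hδe hδu a b
  have hyB : (a : K) * (1 - l) + b * l ∈ B :=
    B.add_mem (B.mul_mem (natCast_mem B a) (B.sub_mem B.one_mem hlB))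
      (B.mul_mem (natCast_mem B b) hlB)
  have hB' := adj (u⁻¹ • D) B hBD E _ hyB hδE
  have hBV' : ∀ x ∈ Algebra.adjoin ℂ ((B : Set K) ∪ {E}), x ∈ V := by
    have : Algebra.adjoin ℂ ((B : Set K) ∪ {E}) ≤ sub V hC := by
      refine Algebra.adjoin_le ?_
      rintro x (hx | hx)
      · exact hBV x hx
      · rw [Set.mem_singleton_iff.1 hx]; exact hE1
    exact fun x hx => this hx
  have hle : ∀ x ∈ B, x ∈ Algebra.adjoin ℂ ((B : Set K) ∪ {E}) := fun x hx =>
    Algebra.subset_adjoin (Or.inl hx)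
  have hui : Transcendental ℂ u⁻¹ := by
    intro h5
    exact hut (by simpa using h5.inv)
  have hAE : Alg1 u E := (hAe.pow a).mul (hAuu.pow b)
  have hcon := h2 K V hC _ (u⁻¹ • D) hBV' hB' u⁻¹ (hle _ huB) huin (-l)
    (hle _ (B.neg_mem hlB)) hδi E (Algebra.subset_adjoin (Or.inr rfl))
    (h3 K u u⁻¹ E (hBA _ huB) hAE hui)
  rw [ValuationSubring.mem_nonunits_iff, hδE, map_mul] at hcon
  have hvE : V.valuation E = 1 := by
    have h7 := (V.valuation_le_one_iff _).2 hE1
    have h8 := (V.valuation_le_one_iff _).2 hE2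
    refine le_antisymm h7 ?_
    have h9 : V.valuation E * V.valuation E⁻¹ = 1 := by
      rw [← map_mul, mul_inv_cancel₀ hE0, map_one]
    rw [← h9]
    calc V.valuation E * V.valuation E⁻¹ ≤ V.valuation E * 1 := by gcongr
      _ = _ := mul_one _
  rw [hvE, mul_one] at hcon
  rw [ValuationSubring.mem_nonunits_iff] at hpq
  -- the integer
  have hint : V.valuation (algebraMap ℂ K (((a : ℂ) - b) * p + b * q)) < 1 := by
    have h7 : algebraMap ℂ K (((a : ℂ) - b) * p + b * q) =
        q * ((a : K) * (1 - l) + b * l) - ((a : K) - b) * ((q : K) * (1 - l) - p) := by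
      simp only [map_add, map_mul, map_sub, map_natCast]
      ring
    rw [h7]
    refine (V.valuation.map_sub _ _).trans_lt (max_lt ?_ ?_)
    · rw [map_mul]
      have h8 : V.valuation (q : K) ≤ 1 :=
        (V.valuation_le_one_iff _).2 (natCast_mem V.toSubring q)
      calc V.valuation (q : K) * V.valuation ((a : K) * (1 - l) + b * l)
          ≤ 1 * V.valuation ((a : K) * (1 - l) + b * l) := by gcongr
        _ < 1 := by rw [one_mul]; exact hcon
    · rw [map_mul]
      have h8 : V.valuation ((a : K) - b) ≤ 1 :=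
        (V.valuation_le_one_iff _).2 (sub_mem (natCast_mem V.toSubring a)
          (natCast_mem V.toSubring b))
      calc V.valuation ((a : K) - b) * V.valuation ((q : K) * (1 - l) - p)
          ≤ 1 * V.valuation ((q : K) * (1 - l) - p) := by gcongr
        _ < 1 := by rw [one_mul]; exact hpq
  have hzero : ((a : ℂ) - b) * p + b * q = 0 := by
    by_contra h7
    rw [val_c V hC _ h7] at hint
    exact absurd hint (lt_irrefl _)
  have hzero' : ((a : ℤ) - b) * p + b * q = 0 := by exact_mod_cast hzero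
  have hab : a < b := by
    by_contra h7
    have h8 : (0 : ℤ) ≤ (a : ℤ) - b := by omega
    have h9 : (0 : ℤ) ≤ ((a : ℤ) - b) * p := mul_nonneg h8 (by omega)
    have h10 : (0 : ℤ) < (b : ℤ) * q := by positivity
    omega
  -- conclusion
  rw [ValuationSubring.mem_nonunits_iff]
  have hfa : f ^ a = E * u⁻¹ ^ (b - a) := by
    obtain ⟨t, rfl⟩ : ∃ t, b = a + t := ⟨b - a, by omega⟩
    rw [hE, Nat.add_sub_cancel_left, div_pow, pow_add, inv_pow]
    field_simp
  have hlt : V.valuation f ^ a < 1 := by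
    rw [← map_pow, hfa, map_mul, hvE, one_mul, map_pow]
    exact pow_lt_one₀ zero_le huin' (by omega)
  by_contra h7
  exact absurd (one_le_pow₀ (not_lt.1 h7) (n := a)) (not_le.2 hlt)

end Pool.Agent.Work.MP_157c12_gt.RA

end

section

/-!
# Rotational hypersurfaces of finite type: item VD
-/

open Finset

namespace Pool.Agent.Work.MP_157c12_gt.RA

namespace ItemVD

variable {K : Type} [Field K] [Algebra ℂ K]

/-- Adjoining elements of a valuation ring. -/
theorem adjoin_le (V : ValuationSubring K) (hV : ∀ z : ℂ, algebraMap ℂ K z ∈ V) (S : Set K)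
    (hS : ∀ x ∈ S, x ∈ V) (b : K) (hb : b ∈ Algebra.adjoin ℂ S) : b ∈ V := by
  induction hb using Algebra.adjoin_induction with
  | mem x hx => exact hS x hx
  | algebraMap r => exact hV r
  | add x y _ _ hx hy => exact V.add_mem x y hx hy
  | mul x y _ _ hx hy => exact V.mul_mem x y hx hy

/-- The subalgebra generated by a set that is mapped into it by a derivation is differential. -/
theorem adjoin_der (δ : Derivation ℂ K K) (S : Set K)
    (hS : ∀ x ∈ S, δ x ∈ Algebra.adjoin ℂ S) (b : K) (hb : b ∈ Algebra.adjoin ℂ S) :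
    δ b ∈ Algebra.adjoin ℂ S := by
  induction hb using Algebra.adjoin_induction with
  | mem x hx => exact hS x hx
  | algebraMap r =>
    rw [Derivation.map_algebraMap]
    exact Subalgebra.zero_mem _
  | add x y _ _ hx hy =>
    rw [map_add]
    exact Subalgebra.add_mem _ hx hy
  | mul x y hx' hy' hx hy =>
    rw [Derivation.leibniz, smul_eq_mul, smul_eq_mul]
    exact Subalgebra.add_mem _ (Subalgebra.mul_mem _ hx' hy) (Subalgebra.mul_mem _ hy' hx)

end ItemVD

open ItemVD in
theorem vD (h1 : VE) (h2 : VTr) (h3 : VG) (h4 : VD2) : VD := by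
  intro K _ _ D n k c u γ f G ρ σ ζ η hP V hV hu hfu
  have hf : f ∈ V.nonunits := h4 K D n k c u γ f G ρ σ ζ η hP V hV hu hfu
  have hfV : f ∈ V := V.nonunits_subset hf
  refine ⟨hfV, ?_⟩
  obtain ⟨-, B, hB1, hB2, -, -, -, hB3, -⟩ := h1 K D n k c u γ f G ρ σ ζ η hP V hV hu
  obtain ⟨-, hft, hfa, hGa, -⟩ := h2 K D n k c u γ f G ρ σ ζ η hP
  have hu0 : u ≠ 0 := by
    rintro rfl
    exact hu V.zero_mem
  have hsub : (B : Set K) ⊆ Algebra.adjoin ℂ ((B : Set K) ∪ {f}) :=
    fun x hx => Algebra.subset_adjoin (Or.inl hx)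
  have hff : f ∈ Algebra.adjoin ℂ ((B : Set K) ∪ {f}) := Algebra.subset_adjoin (Or.inr rfl)
  have hδ : ∀ x : K, (u⁻¹ • D) x = u⁻¹ * D x := fun x => rfl
  refine h3 K V hV (Algebra.adjoin ℂ ((B : Set K) ∪ {f})) (u⁻¹ • D) ?_ ?_ u f G 1 (γ / u) hP.f0
    hff hf (Subalgebra.one_mem _) (by rw [inv_one]; exact V.one_mem) one_ne_zero ?_ ?_ ?_ hfa hGa
    hft
  · refine adjoin_le V hV _ ?_
    rintro x (hx | hx)
    · exact hB1 x hx
    · rw [Set.mem_singleton_iff] at hx
      rw [hx]
      exact hfV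
  · refine adjoin_der _ _ ?_
    rintro x (hx | hx)
    · rw [hδ]
      exact hsub (hB2 x hx)
    · rw [Set.mem_singleton_iff] at hx
      rw [hx, hδ, hP.df, ← mul_assoc, inv_mul_cancel₀ hu0, one_mul]
      exact hff
  · have := hB3 (Sum.inl 2)
    have e : gen k 1 u γ (f ^ 2) ρ σ ζ η (Sum.inl 2) / u ^ wgt k (Sum.inl 2) = γ / u := by
      simp [gen, wgt]
    rw [e] at this
    exact hsub this
  · rw [hδ, hP.df, ← mul_assoc, inv_mul_cancel₀ hu0]
  · rw [hδ, hP.dG]
    field_simp

end Pool.Agent.Work.MP_157c12_gt.RA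

end

section

/-! Item VH: the distance to the centre is constant. -/

set_option autoImplicit false

namespace Pool.Agent.Work.MP_157c12_gt.RA

theorem vH (h1 : VI) (h2 : VA) (h3 : VB) (h4 : VC) (h5 : VD) (h6 : VE) : VH := by
  intro K _ _ D n k c u γ f G ρ σ ζ η hP
  refine h1 K D (f ^ 2 + G ^ 2) fun V hV => ?_
  have key : f ∈ V → G ∈ V → f ^ 2 + G ^ 2 ∈ V := fun hf hG =>
    V.add_mem _ _ (V.toSubring.pow_mem hf 2) (V.toSubring.pow_mem hG 2)
  by_cases hu : u ∈ V
  · obtain ⟨hf, hG⟩ := h2 K D n k c u γ f G ρ σ ζ η hP V hV hu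
    by_cases hn : f ∈ V.nonunits
    · exact key hf (h3 K D n k c u γ f G ρ σ ζ η hP V hV hu hn)
    · exact key hf (hG hn)
  · obtain ⟨hfu, -⟩ := h6 K D n k c u γ f G ρ σ ζ η hP V hV hu
    by_cases hn : f / u ∈ V.nonunits
    · obtain ⟨hf, hG⟩ := h5 K D n k c u γ f G ρ σ ζ η hP V hV hu hn
      exact key hf hG
    · refine h4 K D n k c u γ f G ρ σ ζ η hP V hV hu ?_
      have h7 : V.valuation (f / u) = 1 := by
        refine le_antisymm ((V.valuation_le_one_iff _).2 hfu) ?_
        rw [ValuationSubring.mem_nonunits_iff, not_lt] at hn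
        exact hn
      rw [← V.valuation_le_one_iff, ← inv_div, map_inv₀, h7, inv_one]

end Pool.Agent.Work.MP_157c12_gt.RA

end
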