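import Mathlib

/-!
# Rotational hypersurfaces of finite type, algebraic part: definitions

The profile `(f, g)` in the conformal parameter, `κ = 1`:
`f' = u f`, `g' = γ f`, `u ^ 2 + γ ^ 2 = κ`,
`f ^ 2 R_(j+1) = R_j'' + (n - 2) u R_j' - (n - 1) κ R_j`, `f ^ 2 Z_(j+1) = Z_j'' + (n - 2) u Z_j'`.
-/

open Finset

namespace Pool.Agent.Work.MP_157c12_gt.RA

/-- the imaginary unit in an algebra over `ℂ` -/
noncomputable abbrev ii (A : Type) [CommRing A] [Algebra ℂ A] : A := algebraMap ℂ A Complex.I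

section Alg

variable {A : Type} [CommRing A] [Algebra ℂ A]

/-- the reduced equations of a profile of finite type. `κ` has the weight 2, `u = f' / f` and
`γ = g' / f` have the weight 1, `P = f ^ 2` has the weight 2, `ρ j = f ^ (2 j - 1) R j` and
`ζ j = f ^ (2 j - 1) Z j` have the weight `2 j`, `σ j = f ^ (2 j - 1) (R j)'` and
`η j = f ^ (2 j - 1) (Z j)'` have the weight `2 j + 1`. -/
structure Sys (D : Derivation ℂ A A) (n k : ℕ) (c : ℕ → ℂ) (κ u γ P : A) (ρ σ ζ η : ℕ → A) :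
    Prop where
  dκ : D κ = 0
  dP : D P = 2 * u * P
  du : D u = ((n : A) - 1) * κ + ρ 1 - ((n : A) - 1) * u ^ 2
  dγ : D γ = ζ 1 - ((n : A) - 1) * u * γ
  dρ : ∀ j, 1 ≤ j → j ≤ k → D (ρ j) = (2 * (j : A) - 1) * u * ρ j + σ j
  dσ : ∀ j, 1 ≤ j → j ≤ k →
    D (σ j) = (2 * (j : A) + 1 - n) * u * σ j + ((n : A) - 1) * κ * ρ j + ρ (j + 1)
  dζ : ∀ j, 1 ≤ j → j ≤ k → D (ζ j) = (2 * (j : A) - 1) * u * ζ j + η j
  dη : ∀ j, 1 ≤ j → j ≤ k → D (η j) = (2 * (j : A) + 1 - n) * u * η j + ζ (j + 1)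
  r0 : ρ 0 = 1
  rρ : ρ k = ∑ l ∈ range k, algebraMap ℂ A (c l) * P ^ (k - l) * ρ l
  rρ' : ρ (k + 1) = ∑ l ∈ range k, algebraMap ℂ A (c l) * P ^ (k - l) * ρ (l + 1)
  rζ' : ζ (k + 1) = ∑ l ∈ range k, algebraMap ℂ A (c l) * P ^ (k - l) * ζ (l + 1)
  ab : u ^ 2 + γ ^ 2 = κ
  uv : u * ρ 1 + γ * ζ 1 = 0

/-- the variables of the reduced system: `κ, u, γ, P` and `ρ j, σ j, ζ j, η j` for `1 ≤ j ≤ k` -/
def gen (k : ℕ) (κ u γ P : A) (ρ σ ζ η : ℕ → A) : Fin 4 ⊕ (Fin 4 × Fin k) → A :=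
  Sum.elim ![κ, u, γ, P] (fun p => ![ρ ((p.2 : ℕ) + 1), σ ((p.2 : ℕ) + 1), ζ ((p.2 : ℕ) + 1),
    η ((p.2 : ℕ) + 1)] p.1)

/-- the weights of the variables -/
def wgt (k : ℕ) : Fin 4 ⊕ (Fin 4 × Fin k) → ℕ :=
  Sum.elim ![2, 1, 1, 2] (fun p => ![2 * ((p.2 : ℕ) + 1), 2 * ((p.2 : ℕ) + 1) + 1,
    2 * ((p.2 : ℕ) + 1), 2 * ((p.2 : ℕ) + 1) + 1] p.1)

/-- the recursion for `N j = b ^ (2 j) (ρ j + i ζ j) / κ` and
`M j = b ^ (2 j + 1) (σ j + i η j) / κ` -/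
structure Rec (D : Derivation ℂ A A) (n k : ℕ) (c : ℕ → ℂ) (u b P : A) (ρ N M : ℕ → A) :
    Prop where
  m : ∀ j, 1 ≤ j → j ≤ k →
    M j = b * D (N j) - 2 * (j : A) * N j * D b - (2 * (j : A) - 1) * u * b * N j
  n : ∀ j, 1 ≤ j → j ≤ k → N (j + 1) = b * D (M j) - (2 * (j : A) + 1) * M j * D b
    - (2 * (j : A) + 1 - n) * u * b * M j - ((n : A) - 1) * ρ j * b ^ (2 * j + 2)
  r : N (k + 1) =
    ∑ l ∈ range k, algebraMap ℂ A (c l) * P ^ (k - l) * b ^ (2 * (k - l)) * N (l + 1)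

/-- the homogenised element `s μ ^ w` of `A[μ]` -/
noncomputable def hm (s : A) (w : ℕ) : Polynomial A := Polynomial.C s * Polynomial.X ^ w

end Alg

section Fld

variable {K : Type} [Field K] [Algebra ℂ K]

/-- algebraic over `ℂ(u)` -/
def Alg1 (u x : K) : Prop := IsAlgebraic (IntermediateField.adjoin ℂ ({u} : Set K)) x

/-- a polynomial relation between `x` and `e` which is not divisible by `e` -/
def Rl (e x : K) : Prop :=
  ∃ h : ℕ × ℕ →₀ ℂ, (∃ i, h (i, 0) ≠ 0) ∧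
    (h.sum fun ij c => algebraMap ℂ K c * (x ^ ij.1 * e ^ ij.2)) = 0

/-- a profile in a differential field, with the consequences of the key lemma: the variables are
integral over `ℂ[u]` and homogeneously integral over `ℂ[1/u]` -/
structure Prof (D : Derivation ℂ K K) (n k : ℕ) (c : ℕ → ℂ) (u γ f G : K) (ρ σ ζ η : ℕ → K) :
    Prop where
  sys : Sys D n k c 1 u γ (f ^ 2) ρ σ ζ η
  n2 : 2 ≤ n
  k1 : 1 ≤ k
  c0 : c 0 ≠ 0
  f0 : f ≠ 0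
  df : D f = u * f
  dG : D G = γ * f
  zG : f * ζ 0 = G
  rζ : ζ k = ∑ l ∈ range k, algebraMap ℂ K (c l) * (f ^ 2) ^ (k - l) * ζ l
  int : ∀ i, IsIntegral (Algebra.adjoin ℂ ({u} : Set K)) (gen k 1 u γ (f ^ 2) ρ σ ζ η i)
  int' : u ≠ 0 → ∀ i, IsIntegral (Algebra.adjoin ℂ ({u⁻¹} : Set K))
    (gen k 1 u γ (f ^ 2) ρ σ ζ η i / u ^ wgt k i)

end Fld

end Pool.Agent.Work.MP_157c12_gt.RA
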