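import Pool.Agent.Work.MP_157c12_gt.RA.Stmts

section

/-!
# Taylor homomorphism of a differential algebra at a point
-/

open Finset

set_option linter.unusedSectionVars false

namespace Pool.Agent.Work.MP_157c12_gt.RA

namespace ItemSTay

variable {𝕜 A K : Type} [Field 𝕜] [CommRing A] [Algebra 𝕜 A] [Field K] [CharZero K] [Algebra 𝕜 K]
  (D : Derivation 𝕜 A A) (q : A →ₐ[𝕜] K)

/-- Taylor series -/
noncomputable def T (a : A) : PowerSeries K :=
  PowerSeries.mk fun m => q (D^[m] a) / (m.factorial : K)

theorem iter_add (m : ℕ) (a b : A) : D^[m] (a + b) = D^[m] a + D^[m] b := by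
  induction m generalizing a b with
  | zero => rfl
  | succ m ih => rw [Function.iterate_succ_apply, Function.iterate_succ_apply,
      Function.iterate_succ_apply, map_add, ih]

theorem T_add (a b : A) : T D q (a + b) = T D q a + T D q b := by
  ext m
  simp only [T, PowerSeries.coeff_mk, map_add, iter_add, add_div]

theorem T_D (a : A) : T D q (D a) = PowerSeries.derivative K (T D q a) := by
  ext m
  rw [PowerSeries.coeff_derivative]
  simp only [T, PowerSeries.coeff_mk]
  rw [Function.iterate_succ_apply, Nat.factorial_succ]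
  have h1 : (m.factorial : K) ≠ 0 := Nat.cast_ne_zero.mpr (Nat.factorial_ne_zero m)
  have h2 : ((m : K) + 1) ≠ 0 := by exact_mod_cast Nat.succ_ne_zero m
  push_cast
  field_simp

theorem T_coeff0 (a : A) : PowerSeries.coeff 0 (T D q a) = q a := by
  simp [T]

theorem T_mul_coeff (m : ℕ) : ∀ a b : A,
    PowerSeries.coeff m (T D q (a * b) - T D q a * T D q b) = 0 := by
  induction m with
  | zero =>
    intro a b
    have h : PowerSeries.coeff 0 (T D q a * T D q b) = q a * q b := by
      rw [PowerSeries.coeff_zero_eq_constantCoeff_apply, map_mul,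
        ← PowerSeries.coeff_zero_eq_constantCoeff_apply,
        ← PowerSeries.coeff_zero_eq_constantCoeff_apply, T_coeff0, T_coeff0]
    rw [map_sub, T_coeff0, h, map_mul, sub_self]
  | succ m ih =>
    intro a b
    have h1 : PowerSeries.derivative K (T D q (a * b) - T D q a * T D q b) =
        (T D q (D a * b) - T D q (D a) * T D q b) + (T D q (a * D b) - T D q a * T D q (D b)) := by
      rw [map_sub, ← T_D, Derivation.leibniz, Derivation.leibniz, ← T_D, ← T_D]
      simp only [smul_eq_mul]
      rw [T_add, mul_comm b (D a)]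
      ring
    have h2 := congrArg (PowerSeries.coeff m) h1
    rw [map_add, ih, ih, add_zero, PowerSeries.coeff_derivative] at h2
    have h3 : ((m : K) + 1) ≠ 0 := by exact_mod_cast Nat.succ_ne_zero m
    exact (mul_eq_zero.mp h2).resolve_right h3

theorem T_alg (c : 𝕜) : T D q (algebraMap 𝕜 A c) = algebraMap 𝕜 (PowerSeries K) c := by
  ext m
  rw [PowerSeries.algebraMap_apply, PowerSeries.coeff_C]
  simp only [T, PowerSeries.coeff_mk]
  cases m with
  | zero => simp
  | succ m =>
    have h : ∀ m : ℕ, D^[m] (0 : A) = 0 := by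
      intro m
      induction m with
      | zero => rfl
      | succ m ih => rw [Function.iterate_succ_apply, map_zero, ih]
    rw [Function.iterate_succ_apply, Derivation.map_algebraMap, h, map_zero, zero_div,
      if_neg (Nat.succ_ne_zero m)]

end ItemSTay

open ItemSTay in
theorem sTay : STay := by
  intro 𝕜 A K _ _ _ _ _ _ D q
  refine ⟨{ toFun := T D q
            map_one' := ?_
            map_mul' := ?_
            map_zero' := ?_
            map_add' := T_add D q
            commutes' := T_alg D q }, fun a => T_D D q a, fun a => ?_⟩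
  · have := T_alg D q 1
    rwa [map_one, map_one] at this
  · intro a b
    have : T D q (a * b) - T D q a * T D q b = 0 := by
      ext m; rw [T_mul_coeff]; simp
    exact sub_eq_zero.mp this
  · have := T_alg D q 0
    rwa [map_zero, map_zero] at this
  · exact (PowerSeries.coeff_zero_eq_constantCoeff_apply _).symm.trans (T_coeff0 D q a)

end Pool.Agent.Work.MP_157c12_gt.RA

end

section

/-! Item SMap: the system is preserved by homomorphisms of differential algebras. -/

set_option autoImplicit false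

open Finset

namespace Pool.Agent.Work.MP_157c12_gt.RA

theorem sMap : SMap := by
  intro A B _ _ _ _ D D' T hT n k c κ u γ P ρ σ ζ η h
  refine ⟨⟨?_, ?_, ?_, ?_, ?_, ?_, ?_, ?_, ?_, ?_, ?_, ?_, ?_, ?_⟩, ?_⟩
  · rw [← hT, h.dκ, map_zero]
  · rw [← hT, h.dP]; simp [map_mul, map_ofNat]
  · rw [← hT, h.du]; simp
  · rw [← hT, h.dγ]; simp
  · intro j h1 h2
    rw [← hT, h.dρ j h1 h2]; simp [map_ofNat]
  · intro j h1 h2
    rw [← hT, h.dσ j h1 h2]; simp [map_ofNat]
  · intro j h1 h2
    rw [← hT, h.dζ j h1 h2]; simp [map_ofNat]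
  · intro j h1 h2
    rw [← hT, h.dη j h1 h2]; simp [map_ofNat]
  · show T (ρ 0) = 1
    rw [h.r0, map_one]
  · show T (ρ k) = _
    rw [h.rρ]; simp
  · show T (ρ (k + 1)) = _
    rw [h.rρ']; simp
  · show T (ζ (k + 1)) = _
    rw [h.rζ']; simp
  · rw [← map_pow, ← map_pow, ← map_add, h.ab]
  · rw [← map_mul, ← map_mul, ← map_add, h.uv, map_zero]
  · rintro (i | ⟨i, j⟩)
    · fin_cases i <;> simp [gen]
    · fin_cases i <;> simp [gen]

end Pool.Agent.Work.MP_157c12_gt.RA

end

section

/-!
# Rotational hypersurfaces of finite type: the recursion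
-/

open Finset

namespace Pool.Agent.Work.MP_157c12_gt.RA

namespace ItemSRec

/-- the sequence with the first member `s` and the step `f` -/
def sq {A : Type} [CommRing A] (s : A) (f : ℕ → A → A) : ℕ → A
  | 0 => 0
  | 1 => s
  | (j + 2) => f (j + 1) (sq s f (j + 1))

theorem sq_succ {A : Type} [CommRing A] (s : A) (f : ℕ → A → A) (j : ℕ) (hj : 1 ≤ j) :
    sq s f (j + 1) = f j (sq s f j) := by
  obtain ⟨m, rfl⟩ : ∃ m, j = m + 1 := ⟨j - 1, by omega⟩
  rfl

theorem ii_sq (A : Type) [CommRing A] [Algebra ℂ A] : ii A * ii A = -1 := by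
  rw [← map_mul, Complex.I_mul_I, map_neg, map_one]

theorem D_ii (A : Type) [CommRing A] [Algebra ℂ A] (D : Derivation ℂ A A) : D (ii A) = 0 :=
  D.map_algebraMap _

theorem D_pow {A : Type} [CommRing A] [Algebra ℂ A] (D : Derivation ℂ A A) (b : A) (m : ℕ) :
    D (b ^ (m + 1)) = ((m : A) + 1) * b ^ m * D b := by
  rw [Derivation.leibniz_pow, Nat.add_sub_cancel, nsmul_eq_mul, smul_eq_mul]
  push_cast
  ring

end ItemSRec

open ItemSRec in
theorem sRec : SRec := by
  intro A _ _ _ D n k c κ u γ P ρ σ ζ η hS hκ hk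
  set i : A := ii A with hi
  have hii : i * i = -1 := ii_sq A
  have hDi : D i = 0 := D_ii A D
  set b : A := u - i * γ with hb
  have hab : (u + i * γ) * b = κ := by
    rw [hb, ← hS.ab]
    linear_combination (-γ ^ 2) * hii
  let fM : ℕ → A → A := fun j x =>
    b * D x - 2 * (j : A) * x * D b - (2 * (j : A) - 1) * u * b * x
  let f : ℕ → A → A := fun j x =>
    b * D (fM j x) - (2 * (j : A) + 1) * fM j x * D b
    - (2 * (j : A) + 1 - n) * u * b * fM j x - ((n : A) - 1) * ρ j * b ^ (2 * j + 2)
  let N : ℕ → A := sq (-(ρ 1 - i * ζ 1)) f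
  let M : ℕ → A := fun j => fM j (N j)
  have hN1 : N 1 = -(ρ 1 - i * ζ 1) := rfl
  have hNs : ∀ j, 1 ≤ j → N (j + 1) = b * D (M j) - (2 * (j : A) + 1) * M j * D b
      - (2 * (j : A) + 1 - n) * u * b * M j - ((n : A) - 1) * ρ j * b ^ (2 * j + 2) := by
    intro j hj
    exact sq_succ _ _ j hj
  have hMj : ∀ j, M j = b * D (N j) - 2 * (j : A) * N j * D b
      - (2 * (j : A) - 1) * u * b * N j := fun j => rfl
  clear_value N M
  -- the start
  have h1 : b ^ 2 * (ρ 1 + i * ζ 1) = κ * N 1 := by
    rw [hN1, ← hab, hb]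
    linear_combination (2 * (u - i * γ)) * hS.uv + (-2 * (u - i * γ) * γ * ζ 1) * hii
  -- the steps
  have hM : ∀ j, 1 ≤ j → j ≤ k → b ^ (2 * j) * (ρ j + i * ζ j) = κ * N j →
      b ^ (2 * j + 1) * (σ j + i * η j) = κ * M j := by
    intro j hj hjk h
    have e := congrArg D h
    rw [D.leibniz, D.leibniz, hS.dκ, map_add, D.leibniz, hDi, hS.dρ j hj hjk, hS.dζ j hj hjk] at e
    obtain ⟨m, rfl⟩ : ∃ m, j = m + 1 := ⟨j - 1, by omega⟩
    rw [show 2 * (m + 1) = (2 * m + 1) + 1 from by ring, D_pow] at e
    simp only [smul_eq_mul, mul_zero, add_zero] at e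
    rw [hMj]
    push_cast at e h ⊢
    rw [show 2 * (m + 1) = (2 * m + 1) + 1 from by ring] at h ⊢
    linear_combination b * e - (2 * ((m : A) + 1) * D b + (2 * ((m : A) + 1) - 1) * u * b) * h
  have hN : ∀ j, 1 ≤ j → j ≤ k → b ^ (2 * j + 1) * (σ j + i * η j) = κ * M j →
      b ^ (2 * (j + 1)) * (ρ (j + 1) + i * ζ (j + 1)) = κ * N (j + 1) := by
    intro j hj hjk h
    have e := congrArg D h
    rw [D.leibniz, D.leibniz, hS.dκ, map_add, D.leibniz, hDi, hS.dσ j hj hjk, hS.dη j hj hjk,
      D_pow] at e
    simp only [smul_eq_mul, mul_zero, add_zero] at e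
    rw [hNs j hj]
    push_cast at e h ⊢
    rw [show 2 * (j + 1) = (2 * j + 1) + 1 from by ring]
    linear_combination b * e
      - ((2 * (j : A) + 1) * D b + (2 * (j : A) + 1 - n) * u * b) * h
  have hall : ∀ j, 1 ≤ j → j ≤ k + 1 → b ^ (2 * j) * (ρ j + i * ζ j) = κ * N j := by
    intro j hj
    induction j, hj using Nat.le_induction with
    | base => intro _; simpa using h1
    | succ j hj ih =>
      intro hjk
      exact hN j hj (by omega) (hM j hj (by omega) (ih (by omega)))
  refine ⟨N, M, hN1, h1, ⟨fun j _ _ => hMj j, fun j hj _ => hNs j hj, ?_⟩⟩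
  -- the last relation
  apply mul_left_cancel₀ hκ
  rw [← hall (k + 1) (by omega) le_rfl, hS.rρ', hS.rζ', mul_sum, ← sum_add_distrib, mul_sum,
    mul_sum]
  refine sum_congr rfl fun l hl => ?_
  have hl' : l < k := mem_range.1 hl
  have h := hall (l + 1) (by omega) (by omega)
  have hp : b ^ (2 * (k + 1)) = b ^ (2 * (k - l)) * b ^ (2 * (l + 1)) := by
    rw [← pow_add]
    congr 1
    omega
  rw [hp]
  linear_combination (algebraMap ℂ A (c l) * P ^ (k - l) * b ^ (2 * (k - l))) * h

end Pool.Agent.Work.MP_157c12_gt.RA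

end

section

/-! Item SPole: there are no poles. -/

open Finset

namespace Pool.Agent.Work.MP_157c12_gt.RA

open PowerSeries in
theorem ItemSPole.DX (i : ℕ) (Y : PowerSeries ℂ) :
    (X : PowerSeries ℂ) * PowerSeries.derivative ℂ (X ^ i * Y) =
      X ^ i * ((i : PowerSeries ℂ) * Y + X * PowerSeries.derivative ℂ Y) := by
  rw [Derivation.leibniz, PowerSeries.derivative_pow, PowerSeries.derivative_X]
  simp only [smul_eq_mul, mul_one]
  rcases i with _ | i
  · simp
  · rw [Nat.add_sub_cancel, pow_succ]
    ring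

open PowerSeries in
/-- The core: one more factor `X`. -/
theorem ItemSPole.core (i v : ℕ) (α β : PowerSeries ℂ) (a : ℂ) (hα : constantCoeff α = a)
    (W Y b u F b1 u1 : PowerSeries ℂ) (hb : b = X ^ v * b1) (hu : u = X ^ v * u1)
    (hb1 : constantCoeff b1 ≠ 0) (hY : (X : PowerSeries ℂ) ^ i ∣ Y)
    (hW : (X : PowerSeries ℂ) ^ (i + v) ∣ W) (hF : (X : PowerSeries ℂ) ^ (i + v) ∣ F)
    (h : W = b * PowerSeries.derivative ℂ Y - α * Y * PowerSeries.derivative ℂ b
      - β * u * b * Y - F) (hne : (i : ℂ) - a * v ≠ 0) : (X : PowerSeries ℂ) ^ (i + 1) ∣ Y := by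
  obtain ⟨Y', rfl⟩ := hY
  obtain ⟨W', rfl⟩ := hW
  obtain ⟨F', rfl⟩ := hF
  subst hb hu
  have h1 := ItemSPole.DX i Y'
  have h2 := ItemSPole.DX v b1
  have h3 : (X : PowerSeries ℂ) ^ (i + v) * (b1 * ((i : PowerSeries ℂ) * Y' +
      X * PowerSeries.derivative ℂ Y') - α * Y' * ((v : PowerSeries ℂ) * b1 +
      X * PowerSeries.derivative ℂ b1)) = X ^ (i + v) * (X * (W' + F' + β * u1 * b1 * X ^ v * Y')) := by
    have h4 := congrArg (fun t => (X : PowerSeries ℂ) * t) h
    have e1 : (X : PowerSeries ℂ) * (X ^ v * b1 * PowerSeries.derivative ℂ (X ^ i * Y') -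
        α * (X ^ i * Y') * PowerSeries.derivative ℂ (X ^ v * b1) -
        β * (X ^ v * u1) * (X ^ v * b1) * (X ^ i * Y') - X ^ (i + v) * F') =
        X ^ v * b1 * (X * PowerSeries.derivative ℂ (X ^ i * Y')) -
        α * (X ^ i * Y') * (X * PowerSeries.derivative ℂ (X ^ v * b1)) -
        X * (β * (X ^ v * u1) * (X ^ v * b1) * (X ^ i * Y')) - X * (X ^ (i + v) * F') := by ring
    rw [e1, h1, h2] at h4
    rw [pow_add] at h4 ⊢
    linear_combination -h4
  have h5 := mul_left_cancel₀ (pow_ne_zero _ PowerSeries.X_ne_zero) h3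
  have h6 := congrArg (constantCoeff (R := ℂ)) h5
  simp only [map_sub, map_mul, map_add, map_natCast, PowerSeries.constantCoeff_X, zero_mul,
    add_zero, hα] at h6
  have h7 : constantCoeff Y' * constantCoeff b1 * ((i : ℂ) - a * v) = 0 := by
    linear_combination h6
  have h8 : constantCoeff Y' = 0 := by
    rcases mul_eq_zero.1 h7 with h9 | h9
    · rcases mul_eq_zero.1 h9 with h10 | h10
      · exact h10
      · exact absurd h10 hb1
    · exact absurd h9 hne
  rw [pow_succ]
  exact mul_dvd_mul_left _ (PowerSeries.X_dvd_iff.2 h8)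

open PowerSeries in
theorem sPole : SPole := by
  intro n k c u P ρ N M hk hu h
  set v := u.order.toNat with hv
  obtain ⟨u1, hu1⟩ : (X : PowerSeries ℂ) ^ v ∣ u := PowerSeries.X_pow_order_dvd
  have hu10 : constantCoeff u1 ≠ 0 := by
    have h1 := PowerSeries.coeff_order hu
    rw [← hv] at h1
    intro h2
    apply h1
    rw [hu1, PowerSeries.coeff_X_pow_mul', if_pos le_rfl, Nat.sub_self]
    rwa [PowerSeries.coeff_zero_eq_constantCoeff]
  set b : PowerSeries ℂ := 2 * u with hbdef
  set b1 : PowerSeries ℂ := 2 * u1 with hb1def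
  have hb : b = X ^ v * b1 := by rw [hbdef, hb1def, hu1]; ring
  have h2c : constantCoeff (2 : PowerSeries ℂ) = 2 := map_ofNat _ 2
  have hb10 : constantCoeff b1 ≠ 0 := by
    rw [hb1def, map_mul, h2c]
    exact mul_ne_zero two_ne_zero hu10
  -- the claim with deficit `d`
  have key : ∀ e : ℕ, e ≤ (2 * k + 1) * v → ∀ d, d = (2 * k + 1) * v - e → ∀ j, 1 ≤ j → j ≤ k →
      (X : PowerSeries ℂ) ^ (2 * j * v - d) ∣ N j ∧
      (X : PowerSeries ℂ) ^ ((2 * j + 1) * v - d) ∣ M j := by
    intro e
    induction e with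
    | zero =>
      intro _ d hd j hj1 hjk
      have h1 : 2 * j * v ≤ (2 * k + 1) * v := Nat.mul_le_mul_right _ (by omega)
      have h2 : (2 * j + 1) * v ≤ (2 * k + 1) * v := Nat.mul_le_mul_right _ (by omega)
      rw [show 2 * j * v - d = 0 by omega, show (2 * j + 1) * v - d = 0 by omega]
      exact ⟨by simp, by simp⟩
    | succ e ih =>
      intro he d hd
      have ih' := ih (by omega) (d + 1) (by omega)
      -- the next term
      have hN : ∀ j, 1 ≤ j → j ≤ k + 1 →
          (X : PowerSeries ℂ) ^ (2 * j * v - (d + 1)) ∣ N j := by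
        intro j hj1 hjk
        rcases Nat.lt_or_ge k j with hlt | hge
        · have hj : j = k + 1 := by omega
          subst hj
          rw [h.r]
          refine Finset.dvd_sum fun l hl => ?_
          have hl' := Finset.mem_range.1 hl
          have h1 := (ih' (l + 1) (by omega) (by omega)).1
          have h2 : (X : PowerSeries ℂ) ^ (v * (2 * (k - l))) ∣ b ^ (2 * (k - l)) := by
            rw [hb, mul_pow, ← pow_mul]
            exact dvd_mul_right _ _
          have h3 := mul_dvd_mul h2 h1
          rw [← pow_add] at h3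
          have h4 : 2 * (k + 1) * v - (d + 1) ≤
              v * (2 * (k - l)) + (2 * (l + 1) * v - (d + 1)) := by
            have h5 : 2 * (k + 1) * v = v * (2 * (k - l)) + 2 * (l + 1) * v := by
              obtain ⟨t, rfl⟩ : ∃ t, k = l + t := ⟨k - l, by omega⟩
              rw [Nat.add_sub_cancel_left]
              ring
            omega
          have h5 := (pow_dvd_pow (X : PowerSeries ℂ) h4).trans h3
          exact (h5.mul_left (algebraMap ℂ (PowerSeries ℂ) (c l) * P ^ (k - l))).trans
            (dvd_of_eq (mul_assoc _ _ _).symm)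
        · exact (ih' j hj1 hge).1
      have hM : ∀ j, 1 ≤ j → j ≤ k →
          (X : PowerSeries ℂ) ^ ((2 * j + 1) * v - (d + 1)) ∣ M j := fun j h1 h2 => (ih' j h1 h2).2
      intro j hj1 hjk
      constructor
      · rcases Nat.lt_or_ge d (2 * j * v) with hlt | hge
        · obtain ⟨i, hi⟩ : ∃ i, 2 * j * v = d + 1 + i := ⟨2 * j * v - (d + 1), by omega⟩
          rw [show 2 * j * v - d = i + 1 by omega]
          have hY := hN j hj1 (by omega)
          rw [show 2 * j * v - (d + 1) = i by omega] at hY
          have hW := hM j hj1 hjk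
          rw [show (2 * j + 1) * v - (d + 1) = i + v by
            have : (2 * j + 1) * v = 2 * j * v + v := by ring
            omega] at hW
          refine ItemSPole.core i v (2 * (j : PowerSeries ℂ)) (2 * (j : PowerSeries ℂ) - 1)
            (2 * j) ?_ (M j) (N j) b u 0 b1 u1 hb hu1 hb10 hY hW (dvd_zero _) ?_ ?_
          · rw [map_mul, h2c, map_natCast]
          · rw [h.m j hj1 hjk]; ring
          · have e1 : ((2 * j * v : ℕ) : ℂ) = ((d + 1 + i : ℕ) : ℂ) := by rw [hi]
            push_cast at e1
            rw [e1]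
            have : (i : ℂ) - (d + 1 + i) = -((d + 1 : ℕ) : ℂ) := by push_cast; ring
            rw [this]
            exact neg_ne_zero.2 (Nat.cast_ne_zero.2 (Nat.succ_ne_zero d))
        · rw [show 2 * j * v - d = 0 by omega]
          simp
      · rcases Nat.lt_or_ge d ((2 * j + 1) * v) with hlt | hge
        · obtain ⟨i, hi⟩ : ∃ i, (2 * j + 1) * v = d + 1 + i :=
            ⟨(2 * j + 1) * v - (d + 1), by omega⟩
          rw [show (2 * j + 1) * v - d = i + 1 by omega]
          have hY := hM j hj1 hjk
          rw [show (2 * j + 1) * v - (d + 1) = i by omega] at hY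
          have hW := hN (j + 1) (by omega) (by omega)
          have hjv : 2 * (j + 1) * v = (2 * j + 1) * v + v := by ring
          rw [show 2 * (j + 1) * v - (d + 1) = i + v by omega] at hW
          refine ItemSPole.core i v (2 * (j : PowerSeries ℂ) + 1)
            (2 * (j : PowerSeries ℂ) + 1 - n) (2 * j + 1) ?_ (N (j + 1)) (M j) b u
            (((n : PowerSeries ℂ) - 1) * ρ j * b ^ (2 * j + 2)) b1 u1 hb hu1 hb10 hY hW ?_ ?_ ?_
          · rw [map_add, map_mul, h2c, map_natCast, map_one]
          · apply Dvd.dvd.mul_left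
            rw [hb, mul_pow, ← pow_mul]
            refine Dvd.dvd.mul_right (pow_dvd_pow _ ?_) _
            have : v * (2 * j + 2) = 2 * (j + 1) * v := by ring
            omega
          · exact h.n j hj1 hjk
          · have e1 : (((2 * j + 1) * v : ℕ) : ℂ) = ((d + 1 + i : ℕ) : ℂ) := by rw [hi]
            push_cast at e1
            rw [e1]
            have : (i : ℂ) - (d + 1 + i) = -((d + 1 : ℕ) : ℂ) := by push_cast; ring
            rw [this]
            exact neg_ne_zero.2 (Nat.cast_ne_zero.2 (Nat.succ_ne_zero d))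
        · rw [show (2 * j + 1) * v - d = 0 by omega]
          simp
  have h1 := (key ((2 * k + 1) * v) le_rfl 0 (by omega) 1 le_rfl hk).1
  rw [Nat.sub_zero, mul_one] at h1
  have hunit : IsUnit b1 := by
    rw [PowerSeries.isUnit_iff_constantCoeff]
    exact IsUnit.mk0 _ hb10
  rw [hb, mul_pow, ← pow_mul, mul_comm v 2]
  exact ((hunit.pow 2).mul_right_dvd).2 h1

end Pool.Agent.Work.MP_157c12_gt.RA

end

section

/-!
# Rotational hypersurfaces of finite type, algebraic part: the key lemma
-/

open Finset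

namespace Pool.Agent.Work.MP_157c12_gt.RA

namespace ItemSStar

theorem ii_sq (A : Type) [CommRing A] [Algebra ℂ A] : ii A * ii A = -1 := by
  unfold ii
  rw [← map_mul, Complex.I_mul_I, map_neg, map_one]

/-- a power series without constant term whose square divides its derivative is zero -/
theorem eq_zero_of_dvd (φ : PowerSeries ℂ) (h0 : PowerSeries.constantCoeff φ = 0)
    (h : φ ∣ PowerSeries.derivative ℂ φ) : φ = 0 := by
  by_contra hne
  obtain ⟨m, hm⟩ := (PowerSeries.exists_coeff_ne_zero_iff_ne_zero).mpr hne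
  classical
  have hex : ∃ m, PowerSeries.coeff m φ ≠ 0 := ⟨m, hm⟩
  set r := Nat.find hex with hr
  have hr1 : PowerSeries.coeff r φ ≠ 0 := Nat.find_spec hex
  have hr2 : ∀ i, i < r → PowerSeries.coeff i φ = 0 := by
    intro i hi
    by_contra hc
    exact Nat.find_min hex hi hc
  have hr0 : r ≠ 0 := by
    intro h'
    apply hr1
    rw [h', PowerSeries.coeff_zero_eq_constantCoeff_apply]
    exact h0
  obtain ⟨s, hs⟩ : ∃ s, r = s + 1 := ⟨r - 1, by omega⟩
  obtain ⟨χ, hχ⟩ := h
  have h1 : PowerSeries.coeff s (PowerSeries.derivative ℂ φ) = 0 := by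
    rw [hχ, PowerSeries.coeff_mul]
    apply Finset.sum_eq_zero
    intro x hx
    have hx := Finset.HasAntidiagonal.mem_antidiagonal.mp hx
    rw [hr2 x.1 (by omega), zero_mul]
  rw [PowerSeries.coeff_derivative] at h1
  rcases mul_eq_zero.mp h1 with h2 | h2
  · exact hr1 (by rw [hs]; exact h2)
  · have : ((s : ℂ) + 1) ≠ 0 := by exact_mod_cast Nat.succ_ne_zero s
    exact this h2

theorem caseA (h2 : SMap) (h3 : SRec) (h4 : SPole) (A : Type) [CommRing A] [IsDomain A]
    [Algebra ℂ A] (D : Derivation ℂ A A)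
    (n k : ℕ) (c : ℕ → ℂ) (κ u γ P : A) (ρ σ ζ η : ℕ → A) (hS : Sys D n k c κ u γ P ρ σ ζ η)
    (hc : c 0 ≠ 0) (hk : 1 ≤ k) (hκ : κ ≠ 0) (T : A →ₐ[ℂ] PowerSeries ℂ)
    (hT : ∀ a, T (D a) = PowerSeries.derivative ℂ (T a)) (hTκ : T κ = 0)
    (hTu : PowerSeries.constantCoeff (T u) = 0) (hg : T u + ii (PowerSeries ℂ) * T γ = 0) :
    ∀ i, T (gen k κ u γ P ρ σ ζ η i) = 0 := by
  obtain ⟨S, hgen⟩ := h2 A (PowerSeries ℂ) D (PowerSeries.derivative ℂ) T hT n k c κ u γ P ρ σ ζ η hS
  have hI := ii_sq (PowerSeries ℂ)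
  have hγ : T γ = ii (PowerSeries ℂ) * T u := by
    linear_combination (-ii (PowerSeries ℂ)) * hg + (T γ) * hI
  have hb : T u - ii (PowerSeries ℂ) * T γ = 2 * T u := by
    linear_combination -hg
  by_cases hu : T u = 0
  · have hγ0 : T γ = 0 := by rw [hγ, hu, mul_zero]
    have e1 : T (ρ 1) = 0 := by
      have h := S.du
      simp only [hu, hTκ] at h
      rw [map_zero] at h
      linear_combination -h
    have e2 : T (ζ 1) = 0 := by
      have h := S.dγ
      simp only [hu, hγ0] at h
      rw [map_zero] at h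
      linear_combination -h
    have hs : ∀ j, 1 ≤ j → j ≤ k → T (ρ j) = 0 → T (σ j) = 0 ∧ T (ρ (j + 1)) = 0 := by
      intro j hj hjk h0
      have a1 := S.dρ j hj hjk
      simp only [h0] at a1
      rw [map_zero] at a1
      have a2 : T (σ j) = 0 := by linear_combination -a1
      have a3 := S.dσ j hj hjk
      simp only [h0, a2] at a3
      rw [map_zero] at a3
      exact ⟨a2, by linear_combination -a3⟩
    have hs' : ∀ j, 1 ≤ j → j ≤ k → T (ζ j) = 0 → T (η j) = 0 ∧ T (ζ (j + 1)) = 0 := by
      intro j hj hjk h0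
      have a1 := S.dζ j hj hjk
      simp only [h0] at a1
      rw [map_zero] at a1
      have a2 : T (η j) = 0 := by linear_combination -a1
      have a3 := S.dη j hj hjk
      simp only [a2] at a3
      rw [map_zero] at a3
      exact ⟨a2, by linear_combination -a3⟩
    have r1 : ∀ j, j < k → T (ρ (j + 1)) = 0 := by
      intro j
      induction j with
      | zero => intro _; exact e1
      | succ j ih => intro hj; exact (hs (j + 1) (by omega) (by omega) (ih (by omega))).2
    have r2 : ∀ j, j < k → T (ζ (j + 1)) = 0 := by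
      intro j
      induction j with
      | zero => intro _; exact e2
      | succ j ih => intro hj; exact (hs' (j + 1) (by omega) (by omega) (ih (by omega))).2
    have r3 : T P = 0 := by
      have h := S.rρ
      obtain ⟨k', rfl⟩ : ∃ k', k = k' + 1 := ⟨k - 1, by omega⟩
      simp only [r1 k' (by omega)] at h
      rw [Finset.sum_range_succ'] at h
      have h0 : T (ρ 0) = 1 := S.r0
      have hz : ∑ l ∈ range k', algebraMap ℂ (PowerSeries ℂ) (c (l + 1)) *
          T P ^ (k' + 1 - (l + 1)) * T (ρ (l + 1)) = 0 := by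
        apply Finset.sum_eq_zero
        intro l hl
        rw [Finset.mem_range] at hl
        rw [r1 l (by omega), mul_zero]
      rw [hz, h0, zero_add, mul_one, Nat.sub_zero] at h
      rcases mul_eq_zero.mp h.symm with h5 | h5
      · exact absurd ((map_eq_zero_iff _ (FaithfulSMul.algebraMap_injective ℂ (PowerSeries ℂ))).mp h5) hc
      · exact pow_eq_zero_iff (by omega) |>.mp h5
    intro i
    rcases i with i | ⟨i, j⟩
    · fin_cases i
      · exact hTκ
      · exact hu
      · exact hγ0
      · exact r3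
    · fin_cases i
      · exact r1 j j.2
      · exact (hs (j + 1) (by omega) (by omega) (r1 j j.2)).1
      · exact r2 j j.2
      · exact (hs' (j + 1) (by omega) (by omega) (r2 j j.2)).1
  · exfalso
    obtain ⟨N, M, hN1, hN2, hR⟩ := h3 A D n k c κ u γ P ρ σ ζ η hS hκ hk
    have hTI : T (ii A) = ii (PowerSeries ℂ) := T.commutes _
    have hTb : T (u - ii A * γ) = 2 * T u := by
      rw [map_sub, map_mul, hTI, hb]
    have hRT : Rec (PowerSeries.derivative ℂ) n k c (T u) (2 * T u) (T P) (fun j => T (ρ j))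
        (fun j => T (N j)) (fun j => T (M j)) := by
      refine ⟨fun j hj hjk => ?_, fun j hj hjk => ?_, ?_⟩
      · have h := congrArg T (hR.m j hj hjk)
        simp only [map_mul, map_sub, map_natCast, map_ofNat, map_one, hT, hTb] at h ⊢
        rw [h]
        simp only [← hTb, ← hT, map_sub, map_mul]
      · have h := congrArg T (hR.n j hj hjk)
        simp only [map_mul, map_sub, map_add, map_pow, map_natCast, map_ofNat, map_one, hT, hTb] at h ⊢
        rw [h]
        simp only [← hTb, ← hT, map_sub, map_mul]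
      · have h := congrArg T hR.r
        simp only [map_sum, map_mul, map_pow, hTb, AlgHom.commutes] at h
        simpa only [map_mul, map_pow] using h
    obtain ⟨ψ, hψ⟩ := h4 n k c (T u) (T P) _ _ _ hk hu hRT
    have f1 : T (N 1) = -(T (ρ 1) - ii (PowerSeries ℂ) * T (ζ 1)) := by
      rw [hN1, map_neg, map_sub, map_mul, hTI]
    have f2 : (2 * T u) ^ 2 * (T (ρ 1) + ii (PowerSeries ℂ) * T (ζ 1)) = 0 := by
      have h := congrArg T hN2
      rw [map_mul, map_pow, hTb, map_add, map_mul, hTI, map_mul, hTκ, zero_mul] at h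
      exact h
    have f3 : T (ρ 1) + ii (PowerSeries ℂ) * T (ζ 1) = 0 := by
      rcases mul_eq_zero.mp f2 with h | h
      · exfalso
        have h5 : 2 * T u = 0 := pow_eq_zero_iff (two_ne_zero) |>.mp h
        rcases mul_eq_zero.mp h5 with h6 | h6
        · have h8 := congrArg (PowerSeries.constantCoeff (R := ℂ)) h6
          rw [map_ofNat, map_zero] at h8
          exact two_ne_zero h8
        · exact hu h6
      · exact h
    have f4 := S.du
    simp only [hTκ] at f4
    have f5 : T u ∣ PowerSeries.derivative ℂ (T u) := by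
      have h2' : (2 : PowerSeries ℂ) * PowerSeries.C (1 / 2 : ℂ) = 1 := by
        have : (2 : PowerSeries ℂ) = PowerSeries.C (2 : ℂ) := by
          rw [map_ofNat]
        rw [this, ← map_mul]
        norm_num
      refine ⟨-(2 * T u * ψ) - ((n : PowerSeries ℂ) - 1) * T u, ?_⟩
      have h7 : 2 * (PowerSeries.derivative ℂ (T u)) =
          2 * (T u * (-(2 * T u * ψ) - ((n : PowerSeries ℂ) - 1) * T u)) := by
        rw [f4]
        linear_combination (-1 : PowerSeries ℂ) * hψ + f1 + f3
      calc PowerSeries.derivative ℂ (T u) = (2 * PowerSeries.C (1 / 2 : ℂ)) *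
            PowerSeries.derivative ℂ (T u) := by rw [h2', one_mul]
        _ = PowerSeries.C (1 / 2 : ℂ) * (2 * PowerSeries.derivative ℂ (T u)) := by ring
        _ = (2 * PowerSeries.C (1 / 2 : ℂ)) *
            (T u * (-(2 * T u * ψ) - ((n : PowerSeries ℂ) - 1) * T u)) := by rw [h7]; ring
        _ = _ := by rw [h2', one_mul]
    exact hu (eq_zero_of_dvd (T u) hTu f5)

theorem neg_sys {A : Type} [CommRing A] [Algebra ℂ A] {D : Derivation ℂ A A}
    {n k : ℕ} {c : ℕ → ℂ} {κ u γ P : A} {ρ σ ζ η : ℕ → A} (h : Sys D n k c κ u γ P ρ σ ζ η) :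
    Sys D n k c κ u (-γ) P ρ σ (fun j => -ζ j) (fun j => -η j) where
  dκ := h.dκ
  dP := h.dP
  du := h.du
  dγ := by rw [map_neg, h.dγ]; ring
  dρ := h.dρ
  dσ := h.dσ
  dζ := by intro j h1 h2; rw [map_neg, h.dζ j h1 h2]; ring
  dη := by intro j h1 h2; rw [map_neg, h.dη j h1 h2]; ring
  r0 := h.r0
  rρ := h.rρ
  rρ' := h.rρ'
  rζ' := by
    rw [h.rζ', ← Finset.sum_neg_distrib]
    exact Finset.sum_congr rfl fun _ _ => by ring
  ab := by rw [← h.ab]; ring
  uv := by rw [← h.uv]; ring

end ItemSStar

open ItemSStar in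
theorem sStar (h1 : STay) (h2 : SMap) (h3 : SRec) (h4 : SPole) : SStar := by
  intro A _ _ _ D n k c κ u γ P ρ σ ζ η hS hc hk hκ q hqκ hqu i
  obtain ⟨T, hT, hTq⟩ := h1 ℂ A ℂ D q
  rw [← hTq]
  have hTκ : T κ = 0 := by
    apply PowerSeries.derivative.ext
    · rw [← hT, hS.dκ, map_zero, map_zero]
    · rw [hTq, hqκ, map_zero]
  have hab : T u ^ 2 + T γ ^ 2 = 0 := by
    rw [← map_pow, ← map_pow, ← map_add, hS.ab, hTκ]
  have hfac : (T u + ii (PowerSeries ℂ) * T γ) * (T u + ii (PowerSeries ℂ) * (-T γ)) = 0 := by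
    linear_combination hab - (T γ ^ 2) * ii_sq (PowerSeries ℂ)
  rcases mul_eq_zero.mp hfac with hg | hg
  · rw [caseA h2 h3 h4 A D n k c κ u γ P ρ σ ζ η hS hc hk hκ T hT hTκ (by rw [hTq, hqu]) hg i,
      map_zero]
  · have h := caseA h2 h3 h4 A D n k c κ u (-γ) P ρ σ (fun j => -ζ j) (fun j => -η j)
      (neg_sys hS) hc hk hκ T hT hTκ (by rw [hTq, hqu]) (by rw [map_neg]; exact hg) i
    have h' : T (gen k κ u γ P ρ σ ζ η i) = 0 := by
      rcases i with i | ⟨i, j⟩
      · fin_cases i
        · exact h
        · exact h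
        · have h5 : T (-γ) = 0 := h
          rw [map_neg, neg_eq_zero] at h5
          exact h5
        · exact h
      · fin_cases i
        · exact h
        · exact h
        · have h5 : T (-ζ ((j : ℕ) + 1)) = 0 := h
          rw [map_neg, neg_eq_zero] at h5
          exact h5
        · have h5 : T (-η ((j : ℕ) + 1)) = 0 := h
          rw [map_neg, neg_eq_zero] at h5
          exact h5
    rw [h', map_zero]

end Pool.Agent.Work.MP_157c12_gt.RA

end

section

/-!
# Item SNS: Nullstellensatz
-/

namespace Pool.Agent.Work.MP_157c12_gt.RA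

namespace ItemSNS

/-- a maximal ideal of a finitely generated `ℂ`-algebra is the kernel of a homomorphism to `ℂ` -/
theorem exists_hom {A : Type} [CommRing A] [Algebra ℂ A] [Algebra.FiniteType ℂ A] (m : Ideal A)
    (hm : m.IsMaximal) : ∃ q : A →ₐ[ℂ] ℂ, ∀ a, q a = 0 ↔ a ∈ m := by
  let _ : Field (A ⧸ m) := Ideal.Quotient.field m
  have hft : Algebra.FiniteType ℂ (A ⧸ m) :=
    Algebra.FiniteType.of_surjective (Ideal.Quotient.mkₐ ℂ m) (Ideal.Quotient.mkₐ_surjective ℂ m)
  have hfin : Module.Finite ℂ (A ⧸ m) := finite_of_finite_type_of_isJacobsonRing ℂ (A ⧸ m)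
  have hb : Function.Bijective (algebraMap ℂ (A ⧸ m)) :=
    IsAlgClosed.algebraMap_bijective_of_isIntegral
  let e : ℂ ≃ₐ[ℂ] (A ⧸ m) := AlgEquiv.ofBijective (Algebra.ofId ℂ (A ⧸ m)) hb
  refine ⟨e.symm.toAlgHom.comp (Ideal.Quotient.mkₐ ℂ m), fun a => ?_⟩
  rw [← Ideal.Quotient.eq_zero_iff_mem]
  show e.symm (Ideal.Quotient.mk m a) = 0 ↔ _
  rw [map_eq_zero_iff _ e.symm.injective]

end ItemSNS

/-- Nullstellensatz -/
theorem sNS : SNS := by
  intro S A _ _ _ x hx κ u hq i
  have hft : Algebra.FiniteType ℂ A := by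
    refine ⟨?_⟩
    rw [← hx]
    exact ⟨(Set.finite_range x).toFinset, by rw [Set.Finite.coe_toFinset]⟩
  have hJ : IsJacobsonRing A := isJacobsonRing_of_finiteType (A := ℂ) (B := A)
  have h1 : x i ∈ (Ideal.span ({κ, u} : Set A)).radical := by
    rw [Ideal.radical_eq_jacobson, Ideal.jacobson, Ideal.mem_sInf]
    rintro m ⟨hle, hmax⟩
    obtain ⟨q, hqm⟩ := ItemSNS.exists_hom m hmax
    have hκ : κ ∈ m := hle (Ideal.subset_span (Set.mem_insert _ _))
    have hu : u ∈ m := hle (Ideal.subset_span (Set.mem_insert_of_mem _ (Set.mem_singleton _)))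
    exact (hqm _).1 (hq q ((hqm _).2 hκ) ((hqm _).2 hu) i)
  exact Ideal.mem_radical_iff.mp h1

end Pool.Agent.Work.MP_157c12_gt.RA

end

section

/-! Item SNK: graded Nakayama lemma. -/

set_option autoImplicit false

open Finset

namespace Pool.Agent.Work.MP_157c12_gt.RA

namespace ItemSNK

open Polynomial

variable {S R : Type} [Fintype S] [CommRing R]

/-- monomials -/
noncomputable def mon (w : S → ℕ) (s : S → R) (α : S → ℕ) : R[X] := ∏ j, hm (s j) (w j) ^ α j

/-- weight -/
def W (w : S → ℕ) (α : S → ℕ) : ℕ := ∑ j, w j * α j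

theorem mon_eq (w : S → ℕ) (s : S → R) (α : S → ℕ) :
    mon w s α = C (∏ j, s j ^ α j) * X ^ W w α := by
  unfold mon W hm
  simp only [mul_pow, Finset.prod_mul_distrib, ← pow_mul, Finset.prod_pow_eq_pow_sum]
  rw [map_prod]
  simp

theorem mon_add (w : S → ℕ) (s : S → R) (α β : S → ℕ) :
    mon w s α * mon w s β = mon w s (α + β) := by
  unfold mon
  rw [← Finset.prod_mul_distrib]
  exact Finset.prod_congr rfl fun j _ => by rw [Pi.add_apply, pow_add]

theorem mon_zero (w : S → ℕ) (s : S → R) : mon w s 0 = 1 := by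
  unfold mon
  simp

theorem mon_single (w : S → ℕ) (s : S → R) [DecidableEq S] (i : S) (k : ℕ) :
    mon w s (Pi.single i k) = hm (s i) (w i) ^ k := by
  unfold mon
  rw [Finset.prod_eq_single i]
  · rw [Pi.single_eq_same]
  · intro j _ hj
    rw [Pi.single_eq_of_ne hj, pow_zero]
  · intro h
    exact absurd (Finset.mem_univ i) h

theorem closure_mon (w : S → ℕ) (s : S → R) {y : R[X]}
    (hy : y ∈ Submonoid.closure (Set.range fun j => hm (s j) (w j))) : ∃ α, y = mon w s α := by
  classical
  induction hy using Submonoid.closure_induction with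
  | mem x hx =>
    obtain ⟨i, rfl⟩ := hx
    exact ⟨Pi.single i 1, by rw [mon_single, pow_one]⟩
  | one => exact ⟨0, (mon_zero w s).symm⟩
  | mul x y _ _ hx hy =>
    obtain ⟨α, rfl⟩ := hx
    obtain ⟨β, rfl⟩ := hy
    exact ⟨α + β, mon_add w s α β⟩

variable [Algebra ℂ R]

theorem mon_mem (w : S → ℕ) (s : S → R) (α : S → ℕ) :
    mon w s α ∈ Algebra.adjoin ℂ (Set.range fun j => hm (s j) (w j)) :=
  Subalgebra.prod_mem _ fun j _ => pow_mem (Algebra.subset_adjoin
    (Set.mem_range_self (f := fun j => hm (s j) (w j)) j)) _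

/-- homogeneous parts of elements of the algebra -/
theorem hom_part (w : S → ℕ) (s : S → R) {a : R[X]}
    (ha : a ∈ Algebra.adjoin ℂ (Set.range fun j => hm (s j) (w j))) (d : ℕ) :
    C (a.coeff d) * X ^ d ∈ Submodule.span ℂ {y | ∃ β, W w β = d ∧ y = mon w s β} := by
  have ha' : a ∈ Subalgebra.toSubmodule (Algebra.adjoin ℂ (Set.range fun j => hm (s j) (w j))) := ha
  rw [Algebra.adjoin_eq_span] at ha'
  induction ha' using Submodule.span_induction with
  | mem x hx =>
    obtain ⟨β, rfl⟩ := closure_mon w s hx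
    rw [mon_eq, coeff_C_mul_X_pow]
    by_cases h : d = W w β
    · rw [if_pos h]
      exact Submodule.subset_span ⟨β, h.symm, by rw [mon_eq, h]⟩
    · rw [if_neg h, map_zero, zero_mul]
      exact Submodule.zero_mem _
  | zero => rw [coeff_zero, map_zero, zero_mul]; exact Submodule.zero_mem _
  | add x y hx hy hx' hy' =>
    have h1 : ∀ z ∈ Submodule.span ℂ
        (Submonoid.closure (Set.range fun j => hm (s j) (w j)) : Set R[X]),
        z ∈ Algebra.adjoin ℂ (Set.range fun j => hm (s j) (w j)) := by
      intro z hz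
      rw [← Algebra.adjoin_eq_span] at hz
      exact hz
    rw [coeff_add, map_add, add_mul]
    exact Submodule.add_mem _ (hx' (h1 x hx)) (hy' (h1 y hy))
  | smul c x hx hx' =>
    have h1 : ∀ z ∈ Submodule.span ℂ
        (Submonoid.closure (Set.range fun j => hm (s j) (w j)) : Set R[X]),
        z ∈ Algebra.adjoin ℂ (Set.range fun j => hm (s j) (w j)) := by
      intro z hz
      rw [← Algebra.adjoin_eq_span] at hz
      exact hz
    have : C ((c • x).coeff d) * X ^ d = c • (C (x.coeff d) * X ^ d) := by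
      rw [coeff_smul, ← smul_mul_assoc]
      congr 1
      rw [smul_C]
    rw [this]
    exact Submodule.smul_mem _ _ (hx' (h1 x hx))

end ItemSNK

open ItemSNK Polynomial in
theorem sNK : SNK := by
  intro S R _ _ _ w s i0 i1 hw hrel
  classical
  choose m hm' using hrel
  set L := Algebra.adjoin ℂ ({hm (s i0) (w i0), hm (s i1) (w i1)} : Set (Polynomial R)) with hL
  let T : Set R[X] := (mon w s) '' (Set.univ.pi fun j => Set.Iio (m j))
  let M : Submodule L R[X] := Submodule.span L T
  have hfin : T.Finite := (Set.Finite.pi fun j => Set.finite_Iio (m j)).image _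
  have hfg : M.FG := Submodule.fg_span hfin
  have hmem0 : hm (s i0) (w i0) ∈ L := Algebra.subset_adjoin (by simp)
  have hmem1 : hm (s i1) (w i1) ∈ L := Algebra.subset_adjoin (by simp)
  have key : ∀ D : ℕ, ∀ α, W w α = D → mon w s α ∈ M := by
    intro D
    induction D using Nat.strong_induction_on with
    | _ D ih =>
      intro α hα
      by_cases hsm : ∀ j, α j < m j
      · exact Submodule.subset_span ⟨α, fun j _ => hsm j, rfl⟩
      · push Not at hsm
        obtain ⟨i, hi⟩ := hsm
        have hF : ∀ d < D, Submodule.span ℂ {y | ∃ β, W w β = d ∧ y = mon w s β} ≤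
            M.restrictScalars ℂ := by
          intro d hd
          rw [Submodule.span_le]
          rintro y ⟨β, hβ, rfl⟩
          exact ih d hd β hβ
        have hpart : ∀ y ∈ Algebra.adjoin ℂ (Set.range fun j => hm (s j) (w j)), ∀ k,
            hm (s k) (w k) ∈ L → C ((y * hm (s k) (w k)).coeff D) * X ^ D ∈ M := by
          intro y hy k hk
          have h1 : (y * hm (s k) (w k)).coeff D =
              if w k ≤ D then y.coeff (D - w k) * s k else 0 := by
            unfold hm
            rw [← mul_assoc, coeff_mul_X_pow', coeff_mul_C]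
          rw [h1]
          split_ifs with hk'
          · have h2 : C (y.coeff (D - w k) * s k) * X ^ D =
                (⟨hm (s k) (w k), hk⟩ : L) • (C (y.coeff (D - w k)) * X ^ (D - w k)) := by
              show _ = hm (s k) (w k) * (C (y.coeff (D - w k)) * X ^ (D - w k))
              unfold hm
              rw [C_mul]
              have : (X : R[X]) ^ D = X ^ w k * X ^ (D - w k) := by
                rw [← pow_add, Nat.add_sub_cancel' hk']
              rw [this]
              ring
            rw [h2]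
            refine Submodule.smul_mem _ _ ?_
            have h3 := hom_part w s hy (D - w k)
            exact hF (D - w k) (Nat.sub_lt (lt_of_lt_of_le (hw k) hk') (hw k)) h3
          · rw [map_zero, zero_mul]
            exact Submodule.zero_mem _
        obtain ⟨a, ha, b, hb, hab⟩ := hm' i
        let β : S → ℕ := α - Pi.single i (m i)
        have hαβ : α = Pi.single i (m i) + β := by
          funext j
          by_cases hj : j = i
          · subst hj
            simp only [β, Pi.add_apply, Pi.sub_apply, Pi.single_eq_same]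
            omega
          · simp only [β, Pi.add_apply, Pi.sub_apply, Pi.single_eq_of_ne hj]
            omega
        have h4 : mon w s α = (a * mon w s β) * hm (s i0) (w i0) +
            (b * mon w s β) * hm (s i1) (w i1) := by
          conv_lhs => rw [hαβ]
          rw [← mon_add, mon_single, hab]
          ring
        have h5 : mon w s α = C ((mon w s α).coeff D) * X ^ D := by
          rw [mon_eq, coeff_C_mul_X_pow, hα, if_pos rfl]
        rw [h5, h4, coeff_add, map_add, add_mul]
        exact Submodule.add_mem _ (hpart _ (mul_mem ha (mon_mem w s β)) i0 hmem0)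
          (hpart _ (mul_mem hb (mon_mem w s β)) i1 hmem1)
  intro i
  let A' : Subalgebra L R[X] := Algebra.adjoin L (Set.range fun j => hm (s j) (w j))
  have hA' : Subalgebra.toSubmodule A' = M := by
    apply le_antisymm
    · rw [Algebra.adjoin_eq_span, Submodule.span_le]
      intro y hy
      obtain ⟨α, rfl⟩ := closure_mon w s hy
      exact key _ α rfl
    · rw [Submodule.span_le]
      rintro _ ⟨α, _, rfl⟩
      exact Subalgebra.prod_mem _ fun j _ => pow_mem (Algebra.subset_adjoin
    (Set.mem_range_self (f := fun j => hm (s j) (w j)) j)) _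
  exact IsIntegral.of_mem_of_fg A' (by rw [hA']; exact hfg) _ (Algebra.subset_adjoin
    (Set.mem_range_self (f := fun j => hm (s j) (w j)) i))

end Pool.Agent.Work.MP_157c12_gt.RA

end

section

/-!
# Rotational hypersurfaces of finite type, algebraic part: the derivation `μ d` of `R[μ]`
-/

open Finset

namespace Pool.Agent.Work.MP_157c12_gt.RA

namespace ItemSDX

variable {R : Type} [CommRing R] [Algebra ℂ R]

/-- the linear map `μ d` -/
noncomputable def dl (d : Derivation ℂ R R) : Polynomial R →ₗ[ℂ] Polynomial R :=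
  Polynomial.lsum fun n =>
    ((Polynomial.monomial (n + 1) : R →ₗ[R] Polynomial R).restrictScalars ℂ).comp (d : R →ₗ[ℂ] R)

theorem dl_monomial (d : Derivation ℂ R R) (n : ℕ) (a : R) :
    dl d (Polynomial.monomial n a) = Polynomial.monomial (n + 1) (d a) := by
  simp [dl, Polynomial.lsum, Polynomial.sum_monomial_index]

theorem leibniz (d : Derivation ℂ R R) (p q : Polynomial R) :
    dl d (p * q) = p • dl d q + q • dl d p := by
  induction p using Polynomial.induction_on' with
  | add p1 p2 h1 h2 =>
    rw [add_mul, map_add, h1, h2, map_add]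
    simp only [smul_eq_mul]; ring
  | monomial n a =>
    induction q using Polynomial.induction_on' with
    | add q1 q2 h1 h2 =>
      rw [mul_add, map_add, h1, h2, map_add]
      simp only [smul_eq_mul]; ring
    | monomial m b =>
      rw [Polynomial.monomial_mul_monomial, dl_monomial, dl_monomial, dl_monomial, smul_eq_mul,
        smul_eq_mul, Polynomial.monomial_mul_monomial, Polynomial.monomial_mul_monomial,
        d.leibniz, map_add, smul_eq_mul, smul_eq_mul, show n + (m + 1) = n + m + 1 by omega,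
        show m + (n + 1) = n + m + 1 by omega]

end ItemSDX

theorem sDX : SDX := by
  intro R _ _ d
  refine ⟨Derivation.mk' (ItemSDX.dl d) (ItemSDX.leibniz d), fun s w => ?_⟩
  change ItemSDX.dl d (hm s w) = hm (d s) (w + 1)
  rw [hm, hm, Polynomial.C_mul_X_pow_eq_monomial, Polynomial.C_mul_X_pow_eq_monomial,
    ItemSDX.dl_monomial]

end Pool.Agent.Work.MP_157c12_gt.RA

end
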