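import Pool.Agent.Work.MP_157c12_gt.RA.Defs

/-!
# Rotational hypersurfaces of finite type, algebraic part: statements
-/

open Finset

namespace Pool.Agent.Work.MP_157c12_gt.RA

/-! ### A: the key lemma -/

/-- Taylor homomorphism of a differential algebra at a point -/
def STay : Prop := ∀ (𝕜 A K : Type) [Field 𝕜] [CommRing A] [Algebra 𝕜 A] [Field K] [CharZero K]
  [Algebra 𝕜 K] (D : Derivation 𝕜 A A) (q : A →ₐ[𝕜] K),
  ∃ T : A →ₐ[𝕜] PowerSeries K, (∀ a, T (D a) = PowerSeries.derivative K (T a)) ∧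
    (∀ a, PowerSeries.constantCoeff (T a) = q a)

/-- the system is preserved by homomorphisms of differential algebras -/
def SMap : Prop := ∀ (A B : Type) [CommRing A] [Algebra ℂ A] [CommRing B] [Algebra ℂ B]
  (D : Derivation ℂ A A) (D' : Derivation ℂ B B) (T : A →ₐ[ℂ] B), (∀ a, T (D a) = D' (T a)) →
  ∀ (n k : ℕ) (c : ℕ → ℂ) (κ u γ P : A) (ρ σ ζ η : ℕ → A), Sys D n k c κ u γ P ρ σ ζ η →
  Sys D' n k c (T κ) (T u) (T γ) (T P) (fun j => T (ρ j)) (fun j => T (σ j)) (fun j => T (ζ j))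
    (fun j => T (η j)) ∧
  ∀ i, gen k (T κ) (T u) (T γ) (T P) (fun j => T (ρ j)) (fun j => T (σ j)) (fun j => T (ζ j))
    (fun j => T (η j)) i = T (gen k κ u γ P ρ σ ζ η i)

/-- the recursion for `(ρ j + i ζ j) / κ` -/
def SRec : Prop := ∀ (A : Type) [CommRing A] [IsDomain A] [Algebra ℂ A] (D : Derivation ℂ A A)
  (n k : ℕ) (c : ℕ → ℂ) (κ u γ P : A) (ρ σ ζ η : ℕ → A), Sys D n k c κ u γ P ρ σ ζ η → κ ≠ 0 →
  1 ≤ k → ∃ N M : ℕ → A, N 1 = -(ρ 1 - ii A * ζ 1) ∧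
    (u - ii A * γ) ^ 2 * (ρ 1 + ii A * ζ 1) = κ * N 1 ∧
    Rec D n k c u (u - ii A * γ) P ρ N M

/-- there are no poles -/
def SPole : Prop := ∀ (n k : ℕ) (c : ℕ → ℂ) (u P : PowerSeries ℂ) (ρ N M : ℕ → PowerSeries ℂ),
  1 ≤ k → u ≠ 0 → Rec (PowerSeries.derivative ℂ) n k c u (2 * u) P ρ N M → (2 * u) ^ 2 ∣ N 1

/-- the key lemma: a zero of `κ` and `u` is a zero of all variables -/
def SStar : Prop := ∀ (A : Type) [CommRing A] [IsDomain A] [Algebra ℂ A] (D : Derivation ℂ A A)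
  (n k : ℕ) (c : ℕ → ℂ) (κ u γ P : A) (ρ σ ζ η : ℕ → A), Sys D n k c κ u γ P ρ σ ζ η →
  c 0 ≠ 0 → 1 ≤ k → κ ≠ 0 → ∀ q : A →ₐ[ℂ] ℂ, q κ = 0 → q u = 0 →
  ∀ i, q (gen k κ u γ P ρ σ ζ η i) = 0

/-- Nullstellensatz -/
def SNS : Prop := ∀ (S A : Type) [Fintype S] [CommRing A] [Algebra ℂ A] (x : S → A),
  Algebra.adjoin ℂ (Set.range x) = ⊤ → ∀ κ u : A,
  (∀ q : A →ₐ[ℂ] ℂ, q κ = 0 → q u = 0 → ∀ i, q (x i) = 0) →
  ∀ i, ∃ m : ℕ, x i ^ m ∈ Ideal.span ({κ, u} : Set A)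

/-- graded Nakayama lemma -/
def SNK : Prop := ∀ (S R : Type) [Fintype S] [CommRing R] [Algebra ℂ R] (w : S → ℕ) (s : S → R)
  (i0 i1 : S), (∀ i, 1 ≤ w i) →
  (∀ i, ∃ m : ℕ, ∃ a ∈ Algebra.adjoin ℂ (Set.range fun j => hm (s j) (w j)),
    ∃ b ∈ Algebra.adjoin ℂ (Set.range fun j => hm (s j) (w j)),
    hm (s i) (w i) ^ m = a * hm (s i0) (w i0) + b * hm (s i1) (w i1)) →
  ∀ i, IsIntegral (Algebra.adjoin ℂ ({hm (s i0) (w i0), hm (s i1) (w i1)} : Set (Polynomial R)))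
    (hm (s i) (w i))

/-- the derivation `μ d` of `R[μ]` -/
def SDX : Prop := ∀ (R : Type) [CommRing R] [Algebra ℂ R] (d : Derivation ℂ R R),
  ∃ D : Derivation ℂ (Polynomial R) (Polynomial R), ∀ s w, D (hm s w) = hm (d s) (w + 1)

/-- homogenisation of the system -/
def SHom : Prop := ∀ (R : Type) [CommRing R] [Algebra ℂ R] (d : Derivation ℂ R R)
  (D : Derivation ℂ (Polynomial R) (Polynomial R)), (∀ s w, D (hm s w) = hm (d s) (w + 1)) →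
  ∀ (n k : ℕ) (c : ℕ → ℂ) (u γ P : R) (ρ σ ζ η : ℕ → R), Sys d n k c 1 u γ P ρ σ ζ η →
  Sys D n k c (hm 1 2) (hm u 1) (hm γ 1) (hm P 2) (fun j => hm (ρ j) (2 * j))
    (fun j => hm (σ j) (2 * j + 1)) (fun j => hm (ζ j) (2 * j)) (fun j => hm (η j) (2 * j + 1)) ∧
  ∀ i, gen k (hm 1 2) (hm u 1) (hm γ 1) (hm P 2) (fun j => hm (ρ j) (2 * j))
    (fun j => hm (σ j) (2 * j + 1)) (fun j => hm (ζ j) (2 * j)) (fun j => hm (η j) (2 * j + 1)) i =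
    hm (gen k 1 u γ P ρ σ ζ η i) (wgt k i)

/-- the subalgebra generated by the variables is differential -/
def SAdj : Prop := ∀ (A : Type) [CommRing A] [Algebra ℂ A] (D : Derivation ℂ A A) (n k : ℕ)
  (c : ℕ → ℂ) (κ u γ P : A) (ρ σ ζ η : ℕ → A), 1 ≤ k → Sys D n k c κ u γ P ρ σ ζ η →
  ρ (k + 1) ∈ Algebra.adjoin ℂ (Set.range (gen k κ u γ P ρ σ ζ η)) ∧
  ζ (k + 1) ∈ Algebra.adjoin ℂ (Set.range (gen k κ u γ P ρ σ ζ η)) ∧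
  ∀ a ∈ Algebra.adjoin ℂ (Set.range (gen k κ u γ P ρ σ ζ η)),
    D a ∈ Algebra.adjoin ℂ (Set.range (gen k κ u γ P ρ σ ζ η))

/-- the system in the subalgebra generated by the variables -/
def SSub : Prop := ∀ (A : Type) [CommRing A] [Algebra ℂ A] (D : Derivation ℂ A A) (n k : ℕ)
  (c : ℕ → ℂ) (κ u γ P : A) (ρ σ ζ η : ℕ → A), 1 ≤ k → Sys D n k c κ u γ P ρ σ ζ η →
  ∀ B : Subalgebra ℂ A, B = Algebra.adjoin ℂ (Set.range (gen k κ u γ P ρ σ ζ η)) →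
  ∃ (D' : Derivation ℂ B B) (κ' u' γ' P' : B) (ρ' σ' ζ' η' : ℕ → B),
    Sys D' n k c κ' u' γ' P' ρ' σ' ζ' η' ∧
    (∀ i, ((gen k κ' u' γ' P' ρ' σ' ζ' η' i : B) : A) = gen k κ u γ P ρ σ ζ η i)

/-- all variables are integral over `κ, u` -/
def SInt : Prop := ∀ (n k : ℕ) (c : ℕ → ℂ) (u γ P : PowerSeries ℂ)
  (ρ σ ζ η : ℕ → PowerSeries ℂ), Sys (PowerSeries.derivative ℂ) n k c 1 u γ P ρ σ ζ η →
  c 0 ≠ 0 → 1 ≤ k → ∀ i, IsIntegral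
    (Algebra.adjoin ℂ ({hm 1 2, hm u 1} : Set (Polynomial (PowerSeries ℂ))))
    (hm (gen k 1 u γ P ρ σ ζ η i) (wgt k i))

/-! ### B: from the profile to a differential field -/

/-- from the profile equations to the reduced system -/
def SSys : Prop := ∀ (A : Type) [CommRing A] [Algebra ℂ A] (D : Derivation ℂ A A)
  (u γ f fi : A) (R Z : ℕ → A) (n k : ℕ) (c : ℕ → ℂ), f * fi = 1 → R 0 = f → D f = u * f →
  D (Z 0) = γ * f → u ^ 2 + γ ^ 2 = 1 →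
  (∀ j, f ^ 2 * R (j + 1) = D (D (R j)) + ((n : A) - 2) * u * D (R j) - ((n : A) - 1) * R j) →
  (∀ j, f ^ 2 * Z (j + 1) = D (D (Z j)) + ((n : A) - 2) * u * D (Z j)) →
  R k = ∑ l ∈ range k, algebraMap ℂ A (c l) * R l →
  Z k = ∑ l ∈ range k, algebraMap ℂ A (c l) * Z l →
  Sys D n k c 1 u γ (f ^ 2) (fun j => (f ^ 2) ^ j * fi * R j)
    (fun j => (f ^ 2) ^ j * fi * D (R j)) (fun j => (f ^ 2) ^ j * fi * Z j)
    (fun j => (f ^ 2) ^ j * fi * D (Z j)) ∧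
  (f ^ 2) ^ k * fi * Z k = ∑ l ∈ range k,
    algebraMap ℂ A (c l) * (f ^ 2) ^ (k - l) * ((f ^ 2) ^ l * fi * Z l)

/-- the field of Laurent series -/
def SLau : Prop := ∃ (K : Type) (_ : Field K) (_ : Algebra ℂ K) (D : Derivation ℂ K K)
  (T : PowerSeries ℂ →ₐ[ℂ] K), Function.Injective T ∧
    ∀ a, T (PowerSeries.derivative ℂ a) = D (T a)

/-- dehomogenisation of the integrality -/
def SDeh : Prop := ∀ (R K : Type) [CommRing R] [Algebra ℂ R] [Field K] [Algebra ℂ K]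
  (T : R →ₐ[ℂ] K) (u x : R) (w : ℕ),
  IsIntegral (Algebra.adjoin ℂ ({hm 1 2, hm u 1} : Set (Polynomial R))) (hm x w) →
  IsIntegral (Algebra.adjoin ℂ ({T u} : Set K)) (T x) ∧
  (T u ≠ 0 → IsIntegral (Algebra.adjoin ℂ ({(T u)⁻¹} : Set K)) (T x / T u ^ w))

/-- the profile in a differential field -/
def SPrf : Prop := ∀ (u γ f : PowerSeries ℂ) (R Z : ℕ → PowerSeries ℂ) (n k : ℕ) (c : ℕ → ℂ),
  2 ≤ n → 1 ≤ k → c 0 ≠ 0 → PowerSeries.constantCoeff f ≠ 0 → R 0 = f →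
  PowerSeries.derivative ℂ f = u * f →
  PowerSeries.derivative ℂ (Z 0) = γ * f → u ^ 2 + γ ^ 2 = 1 →
  (∀ j, f ^ 2 * R (j + 1) = PowerSeries.derivative ℂ (PowerSeries.derivative ℂ (R j))
    + ((n : PowerSeries ℂ) - 2) * u * PowerSeries.derivative ℂ (R j)
    - ((n : PowerSeries ℂ) - 1) * R j) →
  (∀ j, f ^ 2 * Z (j + 1) = PowerSeries.derivative ℂ (PowerSeries.derivative ℂ (Z j))
    + ((n : PowerSeries ℂ) - 2) * u * PowerSeries.derivative ℂ (Z j)) →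
  R k = ∑ l ∈ range k, algebraMap ℂ (PowerSeries ℂ) (c l) * R l →
  Z k = ∑ l ∈ range k, algebraMap ℂ (PowerSeries ℂ) (c l) * Z l →
  ∃ (K : Type) (_ : Field K) (_ : Algebra ℂ K) (D : Derivation ℂ K K)
    (T : PowerSeries ℂ →ₐ[ℂ] K) (ρ σ ζ η : ℕ → K), Function.Injective T ∧
    (∀ a, T (PowerSeries.derivative ℂ a) = D (T a)) ∧
    Prof D n k c (T u) (T γ) (T f) (T (Z 0)) ρ σ ζ η

/-! ### C: valuation rings -/

/-- elements algebraic over `ℂ(u)` -/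
def VRed : Prop := ∀ (K : Type) [Field K] [Algebra ℂ K] (u e x : K), Alg1 u e → Alg1 u x →
  Transcendental ℂ e → Rl e x

/-- two elements on different sides of the unit circle -/
def VUnit : Prop := ∀ (K : Type) [Field K] [Algebra ℂ K] (V : ValuationSubring K),
  (∀ z : ℂ, algebraMap ℂ K z ∈ V) → ∀ e x : K, e ≠ 0 → e ∈ V.nonunits → x ∉ V → Rl e x →
  ∃ a b : ℕ, 0 < a ∧ 0 < b ∧ e ^ a * x ^ b ∈ V ∧ (e ^ a * x ^ b)⁻¹ ∈ V

/-- derivatives of bounded elements at a small place -/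
def VCon : Prop := ∀ (K : Type) [Field K] [Algebra ℂ K] (V : ValuationSubring K),
  (∀ z : ℂ, algebraMap ℂ K z ∈ V) → ∀ (B : Subalgebra ℂ K) (δ : Derivation ℂ K K),
  (∀ b ∈ B, b ∈ V) → (∀ b ∈ B, δ b ∈ B) → ∀ e ∈ B, e ∈ V.nonunits → ∀ l ∈ B, δ e = l * e →
  ∀ x ∈ B, Rl e x → δ x ∈ V.nonunits

/-- bounded heights -/
def VG : Prop := ∀ (K : Type) [Field K] [Algebra ℂ K] (V : ValuationSubring K),
  (∀ z : ℂ, algebraMap ℂ K z ∈ V) → ∀ (B : Subalgebra ℂ K) (δ : Derivation ℂ K K),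
  (∀ b ∈ B, b ∈ V) → (∀ b ∈ B, δ b ∈ B) → ∀ (u f G om ta : K), f ≠ 0 → f ∈ B →
  f ∈ V.nonunits → om ∈ B → om⁻¹ ∈ V → om ≠ 0 → ta ∈ B → δ f = om * f → δ G = ta * f →
  Alg1 u f → Alg1 u G → Transcendental ℂ f → G ∈ V

/-- an element of all valuation rings is constant -/
def VI : Prop := ∀ (K : Type) [Field K] [Algebra ℂ K] (D : Derivation ℂ K K) (x : K),
  (∀ V : ValuationSubring K, (∀ z : ℂ, algebraMap ℂ K z ∈ V) → x ∈ V) → D x = 0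

/-- transcendence -/
def VTr : Prop := ∀ (K : Type) [Field K] [Algebra ℂ K] (D : Derivation ℂ K K) (n k : ℕ)
  (c : ℕ → ℂ) (u γ f G : K) (ρ σ ζ η : ℕ → K), Prof D n k c u γ f G ρ σ ζ η →
  Transcendental ℂ u ∧ Transcendental ℂ f ∧ Alg1 u f ∧ Alg1 u G ∧
    ∀ i, Alg1 u (gen k 1 u γ (f ^ 2) ρ σ ζ η i)

/-- places with `|u| ≤ 1`, `|f| = 1` -/
def VA : Prop := ∀ (K : Type) [Field K] [Algebra ℂ K] (D : Derivation ℂ K K) (n k : ℕ)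
  (c : ℕ → ℂ) (u γ f G : K) (ρ σ ζ η : ℕ → K), Prof D n k c u γ f G ρ σ ζ η →
  ∀ V : ValuationSubring K, (∀ z : ℂ, algebraMap ℂ K z ∈ V) → u ∈ V →
  f ∈ V ∧ (f ∉ V.nonunits → G ∈ V)

/-- places with `|u| ≤ 1`, `|f| < 1` -/
def VB : Prop := ∀ (K : Type) [Field K] [Algebra ℂ K] (D : Derivation ℂ K K) (n k : ℕ)
  (c : ℕ → ℂ) (u γ f G : K) (ρ σ ζ η : ℕ → K), Prof D n k c u γ f G ρ σ ζ η →
  ∀ V : ValuationSubring K, (∀ z : ℂ, algebraMap ℂ K z ∈ V) → u ∈ V → f ∈ V.nonunits → G ∈ V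

/-- places with `1 < |u| = |f|` -/
def VC : Prop := ∀ (K : Type) [Field K] [Algebra ℂ K] (D : Derivation ℂ K K) (n k : ℕ)
  (c : ℕ → ℂ) (u γ f G : K) (ρ σ ζ η : ℕ → K), Prof D n k c u γ f G ρ σ ζ η →
  ∀ V : ValuationSubring K, (∀ z : ℂ, algebraMap ℂ K z ∈ V) → u ∉ V → u / f ∈ V →
  f ^ 2 + G ^ 2 ∈ V

/-- the differential ring at a place with `1 < |u|` -/
def VE : Prop := ∀ (K : Type) [Field K] [Algebra ℂ K] (D : Derivation ℂ K K) (n k : ℕ)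
  (c : ℕ → ℂ) (u γ f G : K) (ρ σ ζ η : ℕ → K), Prof D n k c u γ f G ρ σ ζ η →
  ∀ V : ValuationSubring K, (∀ z : ℂ, algebraMap ℂ K z ∈ V) → u ∉ V →
  f / u ∈ V ∧ ∃ B : Subalgebra ℂ K, (∀ b ∈ B, b ∈ V) ∧ (∀ b ∈ B, u⁻¹ * D b ∈ B) ∧
    (∀ b ∈ B, Alg1 u b) ∧ u⁻¹ ∈ B ∧ f / u ∈ B ∧
    (∀ i, gen k 1 u γ (f ^ 2) ρ σ ζ η i / u ^ wgt k i ∈ B) ∧ D u / u ^ 2 ∈ B

/-- places with `|f| < |u|`, `1 < |u|`: the exponent -/
def VD1 : Prop := ∀ (K : Type) [Field K] [Algebra ℂ K] (D : Derivation ℂ K K) (n k : ℕ)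
  (c : ℕ → ℂ) (u γ f G : K) (ρ σ ζ η : ℕ → K), Prof D n k c u γ f G ρ σ ζ η →
  ∀ V : ValuationSubring K, (∀ z : ℂ, algebraMap ℂ K z ∈ V) → u ∉ V → f / u ∈ V.nonunits →
  ∃ p q : ℕ, 0 < p ∧ 0 < q ∧ (q : K) * (1 - D u / u ^ 2) - p ∈ V.nonunits

/-- places with `|f| < |u|`, `1 < |u|`: the radius is small -/
def VD2 : Prop := ∀ (K : Type) [Field K] [Algebra ℂ K] (D : Derivation ℂ K K) (n k : ℕ)
  (c : ℕ → ℂ) (u γ f G : K) (ρ σ ζ η : ℕ → K), Prof D n k c u γ f G ρ σ ζ η →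
  ∀ V : ValuationSubring K, (∀ z : ℂ, algebraMap ℂ K z ∈ V) → u ∉ V → f / u ∈ V.nonunits →
  f ∈ V.nonunits

/-- places with `|f| < |u|`, `1 < |u|` -/
def VD : Prop := ∀ (K : Type) [Field K] [Algebra ℂ K] (D : Derivation ℂ K K) (n k : ℕ)
  (c : ℕ → ℂ) (u γ f G : K) (ρ σ ζ η : ℕ → K), Prof D n k c u γ f G ρ σ ζ η →
  ∀ V : ValuationSubring K, (∀ z : ℂ, algebraMap ℂ K z ∈ V) → u ∉ V → f / u ∈ V.nonunits →
  f ∈ V ∧ G ∈ V

/-- the distance to the centre is constant -/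
def VH : Prop := ∀ (K : Type) [Field K] [Algebra ℂ K] (D : Derivation ℂ K K) (n k : ℕ)
  (c : ℕ → ℂ) (u γ f G : K) (ρ σ ζ η : ℕ → K), Prof D n k c u γ f G ρ σ ζ η →
  D (f ^ 2 + G ^ 2) = 0

/-- the algebraic main theorem -/
def SAM : Prop := ∀ (u γ f : PowerSeries ℂ) (R Z : ℕ → PowerSeries ℂ) (n k : ℕ) (c : ℕ → ℂ),
  2 ≤ n → 1 ≤ k → c 0 ≠ 0 → PowerSeries.constantCoeff f ≠ 0 → R 0 = f →
  PowerSeries.derivative ℂ f = u * f →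
  PowerSeries.derivative ℂ (Z 0) = γ * f → u ^ 2 + γ ^ 2 = 1 →
  (∀ j, f ^ 2 * R (j + 1) = PowerSeries.derivative ℂ (PowerSeries.derivative ℂ (R j))
    + ((n : PowerSeries ℂ) - 2) * u * PowerSeries.derivative ℂ (R j)
    - ((n : PowerSeries ℂ) - 1) * R j) →
  (∀ j, f ^ 2 * Z (j + 1) = PowerSeries.derivative ℂ (PowerSeries.derivative ℂ (Z j))
    + ((n : PowerSeries ℂ) - 2) * u * PowerSeries.derivative ℂ (Z j)) →
  R k = ∑ l ∈ range k, algebraMap ℂ (PowerSeries ℂ) (c l) * R l →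
  Z k = ∑ l ∈ range k, algebraMap ℂ (PowerSeries ℂ) (c l) * Z l →
  PowerSeries.derivative ℂ (f ^ 2 + Z 0 ^ 2) = 0

end Pool.Agent.Work.MP_157c12_gt.RA
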